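import Pool.Agent.H609.ET.Stm
import Pool.Agent.H609.XP.Series

/-!
# The joint digits of several numbers `(∑ f k b ^ (-n k)) / p ^ r`, one prime for each
-/

set_option autoImplicit false

namespace Pool.Agent.H609.ET

open Finset
open Pool.Agent.H609.XP (U U_not_dvd U_approx)

lemma order_data {b : ℕ} (hb : 2 ≤ b) {p t : ℕ} (hp : p.Prime) (hpb : ¬ p ∣ b) (ht : 1 ≤ t)
    (hpt : p - 1 ∣ t) : ∃ a : ℕ, ∃ w : ℤ, 1 ≤ a ∧ (b : ℤ) ^ t = 1 + (p : ℤ) ^ a * w ∧
      ¬ (p : ℤ) ∣ w := by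
  set u : ℤ := (b : ℤ) ^ t with hu
  have hu1 : (p : ℤ) ∣ u - 1 := by
    have := Fact.mk hp
    rw [← ZMod.intCast_zmod_eq_zero_iff_dvd]
    rw [hu]
    push_cast
    have h1 : (b : ZMod p) ≠ 0 := by
      rw [Ne, ZMod.natCast_eq_zero_iff]
      exact hpb
    obtain ⟨e, rfl⟩ := hpt
    rw [pow_mul, ZMod.pow_card_sub_one_eq_one h1, one_pow, sub_self]
  have hu0 : u - 1 ≠ 0 := by
    have h1 : (1 : ℤ) < u := by
      rw [hu]
      exact one_lt_pow₀ (by exact_mod_cast (by omega : 1 < b)) (by omega)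
    omega
  have hfin : FiniteMultiplicity (p : ℤ) (u - 1) := by
    rw [Int.finiteMultiplicity_iff]
    refine ⟨?_, hu0⟩
    simp only [Int.natAbs_natCast]
    exact hp.one_lt.ne'
  obtain ⟨w, hw1, hw2⟩ := hfin.exists_eq_pow_mul_and_not_dvd
  refine ⟨multiplicity (p : ℤ) (u - 1), w, ?_, by linarith, hw2⟩
  by_contra hcon
  have h1 : multiplicity (p : ℤ) (u - 1) = 0 := by omega
  rw [h1, pow_zero, one_mul] at hw1
  rw [hw1] at hu1
  exact hw2 hu1

open Classical in
lemma EG_le (G : ℕ → Prop) {y : ℝ} (hy0 : 0 ≤ y) (hy1 : y ≤ 1) (s L : ℕ) : |EG G y s L| ≤ L := by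
  unfold EG
  have h1 : (({j ∈ range L | G (s + j)} : Finset ℕ).card : ℕ) ≤ L := by
    refine (card_filter_le _ _).trans ?_
    rw [card_range]
  have h2 : ((({j ∈ range L | G (s + j)} : Finset ℕ).card : ℕ) : ℝ) ≤ L := by exact_mod_cast h1
  have h3 : (0 : ℝ) ≤ ((({j ∈ range L | G (s + j)} : Finset ℕ).card : ℕ) : ℝ) := Nat.cast_nonneg _
  have hL : (0 : ℝ) ≤ L := Nat.cast_nonneg _
  have h4 : y * L ≤ L := by nlinarith
  have h5 : 0 ≤ y * L := by positivity
  rw [abs_le]
  constructor <;> linarith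

open Classical in
/-- **The joint digits.** -/
theorem digits (hblk : S_BLK) (hrun : S_RUN) {b : ℕ} (hb : 2 ≤ b) {k : ℕ} (p : Fin k → ℕ)
    (hp : ∀ i, (p i).Prime) (hodd : ∀ i, Odd (p i)) (hinj : Function.Injective p)
    (hpb : ∀ i, ¬ p i ∣ b) (f : Fin k → ℕ → ℤ) {K : ℕ} (hK : 1 ≤ K)
    (hf : ∀ i l, |(f i l : ℝ)| ≤ (K : ℝ) ^ (l + 1))
    (h0 : ∀ i, ¬ (p i : ℤ) ∣ f i 0) (hk : ∀ i l, 1 ≤ l → (p i : ℤ) ∣ f i l) :
    ∃ C : ℝ, 0 < C ∧ ∀ n : ℕ, K + 1 ≤ n → ∀ r : Fin k → ℕ, ∀ lo hi : Fin k → ℝ,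
      (∀ i, 0 ≤ lo i) → (∀ i, lo i ≤ hi i) → (∀ i, hi i ≤ 1) → ∀ s L : ℕ,
      |EG (fun j => ∀ i, lo i ≤ Int.fract ((b : ℝ) ^ j *
          ((∑' l, (f i l : ℝ) * (((b : ℝ) ^ n)⁻¹) ^ l) / (p i : ℝ) ^ r i)) ∧
        Int.fract ((b : ℝ) ^ j *
          ((∑' l, (f i l : ℝ) * (((b : ℝ) ^ n)⁻¹) ^ l) / (p i : ℝ) ^ r i)) < hi i)
          (∏ i, (hi i - lo i)) s L| ≤
        C * (L * ∑ i, 1 / (p i : ℝ) ^ r i +
          (∏ i, (p i : ℝ) ^ r i + (s + L) / n) * (L / n + 1)) := by
  have hpR1 : ∀ i, (1 : ℝ) ≤ p i := fun i => by exact_mod_cast (hp i).one_le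
  have hb0 : (0 : ℝ) < b := by exact_mod_cast (by omega : 0 < b)
  have hbR : (2 : ℝ) ≤ b := by exact_mod_cast hb
  have hKR : (1 : ℝ) ≤ K := by exact_mod_cast hK
  -- the order
  set t := ∏ i, (p i - 1) with ht
  have ht1 : 1 ≤ t := by
    rw [ht]
    exact Nat.one_le_iff_ne_zero.2 (prod_ne_zero_iff.2 fun i _ => by
      have := (hp i).two_le
      omega)
  choose a w ha huw hw using fun i => order_data hb (hp i) (hpb i) ht1
    (dvd_prod_of_mem (fun i => p i - 1) (mem_univ i))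
  set A : ℝ := ∏ i, (p i : ℝ) ^ a i with hA
  have hA1 : ∀ i, (p i : ℝ) ^ a i ≤ A := by
    intro i
    rw [hA, ← mul_prod_erase univ _ (mem_univ i)]
    have h1 : (1 : ℝ) ≤ ∏ j ∈ univ.erase i, (p j : ℝ) ^ a j := by
      have h2 : ∏ j ∈ univ.erase i, (1 : ℝ) ≤ ∏ j ∈ univ.erase i, (p j : ℝ) ^ a j :=
        prod_le_prod (fun _ _ => zero_le_one) (fun j _ => one_le_pow₀ (hpR1 j))
      simpa using h2
    have h3 : (0 : ℝ) ≤ (p i : ℝ) ^ a i := by positivity
    nlinarith
  have hApos : 0 < A := by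
    rw [hA]
    exact prod_pos fun i _ => pow_pos (by have := hpR1 i; linarith) _
  set C : ℝ := A * 6 + 2 * (t + 2 * K + 2 + K) with hC
  refine ⟨C, by positivity, fun n hn r lo hi hlo hlh hhi s L => ?_⟩
  have hnpos : 0 < n := by omega
  have hnR : (0 : ℝ) < n := by exact_mod_cast hnpos
  have hprpos : ∀ i, (0 : ℝ) < (p i : ℝ) ^ r i := fun i => pow_pos (by have := hpR1 i; linarith) _
  set y : ℝ := ∏ i, (hi i - lo i) with hy
  have hy0 : 0 ≤ y := prod_nonneg fun i _ => by have := hlh i; linarith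
  have hy1 : y ≤ 1 := by
    rw [hy]
    exact prod_le_one (fun i _ => by have := hlh i; linarith)
      (fun i _ => by have := hlo i; have := hhi i; linarith)
  set S : Fin k → ℝ := fun i => ∑' l, (f i l : ℝ) * (((b : ℝ) ^ n)⁻¹) ^ l with hS
  set G : ℕ → Prop := fun j => ∀ i, lo i ≤ Int.fract ((b : ℝ) ^ j * (S i / (p i : ℝ) ^ r i)) ∧
    Int.fract ((b : ℝ) ^ j * (S i / (p i : ℝ) ^ r i)) < hi i with hG'
  change |EG G y s L| ≤ _
  set Sg : ℝ := ∑ i, 1 / (p i : ℝ) ^ r i with hSg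
  set Q : ℝ := ∏ i, (p i : ℝ) ^ r i with hQ
  have hSg0 : 0 ≤ Sg := sum_nonneg fun i _ => by have := hprpos i; positivity
  have hQ1 : 1 ≤ Q := by
    have h2 : ∏ i : Fin k, (1 : ℝ) ≤ ∏ i, (p i : ℝ) ^ r i :=
      prod_le_prod (fun _ _ => zero_le_one) (fun j _ => one_le_pow₀ (hpR1 j))
    simpa using h2
  have hL0 : (0 : ℝ) ≤ L := Nat.cast_nonneg _
  have hs0 : (0 : ℝ) ≤ s := Nat.cast_nonneg _
  have hX : 0 ≤ (Q + (s + L) / n) * (L / n + 1) := by positivity
  by_cases hra : ∀ i, a i ≤ r i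
  · set P := ∏ i, p i ^ (r i - a i) with hP
    have hPpos : 0 < P := prod_pos fun i _ => Nat.pow_pos (hp i).pos
    set T := t * P with hT
    have hTpos : 0 < T := Nat.mul_pos ht1 hPpos
    set N := s + L with hN
    set g := K * (N / n + 2) + 2 with hg
    set e : ℝ := 6 * (P : ℝ) * ∑ i, 1 / (p i : ℝ) ^ (r i - a i) with he
    have he0 : 0 ≤ e := by
      rw [he]
      have : 0 ≤ ∑ i, 1 / (p i : ℝ) ^ (r i - a i) := sum_nonneg fun i _ => by positivity
      positivity
    have h2K : 2 * (K : ℝ) ≤ (b : ℝ) ^ n := by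
      calc 2 * (K : ℝ) ≤ 2 * 2 ^ K := by
            have : (K : ℝ) < 2 ^ K := by exact_mod_cast Nat.lt_two_pow_self
            linarith
        _ = 2 ^ (K + 1) := by ring
        _ ≤ (b : ℝ) ^ (K + 1) := pow_le_pow_left₀ (by norm_num) hbR _
        _ ≤ _ := pow_le_pow_right₀ (by linarith) hn
    have hmain := hblk G y hy0 hy1 t P ht1 hPpos e he0 n g N hnpos (by
      intro κ s' hs1 hs2 hs3 i0 hi0
      have hκ : κ ≤ N / n := by
        rw [Nat.le_div_iff_mul_le hnpos, mul_comm]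
        omega
      set V : Fin k → ℤ := fun i => (b : ℤ) ^ (s' + i0 - n * κ) * U (f i) b n κ with hV
      have hVp : ∀ i, ¬ (p i : ℤ) ∣ V i := by
        intro i h
        have hpZ : Prime (p i : ℤ) := Nat.prime_iff_prime_int.1 (hp i)
        rcases hpZ.dvd_or_dvd h with h1 | h1
        · exact hpb i (by exact_mod_cast hpZ.dvd_of_dvd_pow h1)
        · exact U_not_dvd (hp i) (hpb i) (f i) (h0 i) (hk i) n κ h1
      have hr1 := hrun k p hp hodd hinj a ((b : ℤ) ^ t) w ha huw hw r hra V hVp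
        (fun m i => (b : ℝ) ^ (s' + (i0 + t * m)) * (S i / (p i : ℝ) ^ r i)) (by
          intro m hm i
          have hj : i0 + t * m < T := by
            rw [hT]
            calc i0 + t * m < t + t * m := by omega
              _ = t * (m + 1) := by ring
              _ ≤ t * P := Nat.mul_le_mul_left _ hm
          obtain ⟨e, he⟩ : ∃ e, s' + (i0 + t * m) = n * κ + e :=
            ⟨s' + (i0 + t * m) - n * κ, by omega⟩
          have heG : e + g ≤ n := by omega
          have h1 : V i * ((b : ℤ) ^ t) ^ m = (b : ℤ) ^ e * U (f i) b n κ := by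
            rw [hV]
            have h2 : s' + i0 - n * κ + t * m = e := by omega
            simp only
            rw [← h2, pow_add, pow_mul]
            ring
          have h3 : (b : ℝ) ^ (s' + (i0 + t * m)) * (S i / (p i : ℝ) ^ r i) -
              ((V i * ((b : ℤ) ^ t) ^ m : ℤ) : ℝ) / (p i : ℝ) ^ r i =
              (b : ℝ) ^ e * ((b : ℝ) ^ (n * κ) * S i - U (f i) b n κ) / (p i : ℝ) ^ r i := by
            rw [h1, he, pow_add]
            push_cast
            ring
          rw [h3, abs_div, abs_mul, abs_of_pos (hprpos i), abs_of_pos (by positivity)]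
          have h4 := U_approx hb (f i) (by positivity : (0 : ℝ) ≤ K) (hf i) h2K κ
          have h5 : (b : ℝ) ^ e * |(b : ℝ) ^ (n * κ) * S i - U (f i) b n κ| ≤ 1 / 2 := by
            calc (b : ℝ) ^ e * |(b : ℝ) ^ (n * κ) * S i - U (f i) b n κ| ≤
                (b : ℝ) ^ e * (2 * (K : ℝ) ^ (κ + 2) * ((b : ℝ) ^ n)⁻¹) :=
                  mul_le_mul_of_nonneg_left h4 (by positivity)
              _ = 2 * (K : ℝ) ^ (κ + 2) * ((b : ℝ) ^ e * ((b : ℝ) ^ n)⁻¹) := by ring
              _ ≤ 2 * (K : ℝ) ^ (κ + 2) * ((b : ℝ) ^ g)⁻¹ := by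
                  apply mul_le_mul_of_nonneg_left _ (by positivity)
                  rw [← div_eq_mul_inv, div_le_iff₀ (by positivity), ← div_eq_inv_mul,
                    le_div_iff₀ (by positivity), ← pow_add]
                  exact pow_le_pow_right₀ (by linarith) heG
              _ ≤ 1 / 2 := by
                  rw [← div_eq_mul_inv, div_le_iff₀ (by positivity)]
                  have h6 : (K : ℝ) ^ (κ + 2) ≤ (2 : ℝ) ^ (K * (N / n + 2)) := by
                    calc (K : ℝ) ^ (κ + 2) ≤ (2 ^ K : ℝ) ^ (κ + 2) := by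
                          apply pow_le_pow_left₀ (by positivity)
                          exact_mod_cast (Nat.lt_two_pow_self (n := K)).le
                      _ = (2 : ℝ) ^ (K * (κ + 2)) := by rw [← pow_mul]
                      _ ≤ _ := pow_le_pow_right₀ (by norm_num) (Nat.mul_le_mul_left _ (by omega))
                  have h7 : (2 : ℝ) ^ (K * (N / n + 2)) * 4 ≤ (b : ℝ) ^ g := by
                    calc (2 : ℝ) ^ (K * (N / n + 2)) * 4 = 2 ^ g := by
                          rw [hg, pow_add]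
                          norm_num
                      _ ≤ _ := pow_le_pow_left₀ (by norm_num) hbR _
                  linarith
          calc (b : ℝ) ^ e * |(b : ℝ) ^ (n * κ) * S i - U (f i) b n κ| / (p i : ℝ) ^ r i ≤
              (1 / 2) / (p i : ℝ) ^ r i := div_le_div_of_nonneg_right h5 (hprpos i).le
            _ = _ := by field_simp) lo hi hlo hlh hhi
      refine le_trans (le_of_eq ?_) hr1
      refine congrArg abs (congrArg₂ (fun x z : ℝ => x - z) (congrArg Nat.cast
        (congrArg Finset.card ?_)) rfl)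
      ext m
      simp only [mem_filter]
      exact Iff.rfl) s L le_rfl
    refine hmain.trans ?_
    have hPle : ((P : ℕ) : ℝ) ≤ Q := by
      rw [hP, hQ]
      push_cast
      exact prod_le_prod (fun i _ => by positivity)
        (fun i _ => pow_le_pow_right₀ (hpR1 i) (by omega))
    have hPR0 : (0 : ℝ) < P := by exact_mod_cast hPpos
    have htR : (1 : ℝ) ≤ t := by exact_mod_cast ht1
    have hTR : ((T : ℕ) : ℝ) = t * P := by rw [hT]; push_cast; ring
    have hterm1 : (t : ℝ) * e * (L / ((T : ℕ) : ℝ)) ≤ A * 6 * (L * Sg) := by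
      have h1 : (t : ℝ) * e * (L / ((T : ℕ) : ℝ)) = 6 * L * ∑ i, 1 / (p i : ℝ) ^ (r i - a i) := by
        rw [hTR, he]
        field_simp
      have h2 : ∑ i, 1 / (p i : ℝ) ^ (r i - a i) ≤ A * Sg := by
        rw [hSg, mul_sum]
        refine sum_le_sum fun i _ => ?_
        have h3 : (p i : ℝ) ^ r i = (p i : ℝ) ^ a i * (p i : ℝ) ^ (r i - a i) := by
          rw [← pow_add]
          congr 1
          have := hra i
          omega
        have h4 : (0 : ℝ) < (p i : ℝ) ^ (r i - a i) := pow_pos (by have := hpR1 i; linarith) _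
        have h5 : (0 : ℝ) < (p i : ℝ) ^ a i := pow_pos (by have := hpR1 i; linarith) _
        rw [h3, mul_one_div, div_le_div_iff₀ h4 (by positivity)]
        nlinarith [hA1 i]
      rw [h1]
      calc 6 * (L : ℝ) * ∑ i, 1 / (p i : ℝ) ^ (r i - a i) ≤ 6 * L * (A * Sg) :=
            mul_le_mul_of_nonneg_left h2 (by positivity)
        _ = _ := by ring
    have hdiv : ((N / n : ℕ) : ℝ) ≤ (s + L) / n := by
      have h9 := @Nat.cast_div_le ℝ _ _ _ N n
      refine h9.trans (le_of_eq ?_)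
      rw [hN]
      push_cast
      ring
    have hGR : ((g : ℕ) : ℝ) ≤ K * ((s + L) / n) + (2 * K + 2) := by
      rw [hg]
      push_cast
      have := mul_le_mul_of_nonneg_left hdiv (by positivity : (0 : ℝ) ≤ K)
      linarith
    have hTG : (T : ℝ) + g ≤ (t + 2 * K + 2 + K) * (Q + (s + L) / n) := by
      have h10 : (T : ℝ) ≤ t * Q := by
        rw [hTR]
        exact mul_le_mul_of_nonneg_left hPle (by positivity)
      have h11 : (0 : ℝ) ≤ (s + L) / n := by positivity
      have h12 : (2 * (K : ℝ) + 2) ≤ (2 * K + 2) * Q := by nlinarith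
      have h13 : (0 : ℝ) ≤ (t + 2 * K + 2) * ((s + L) / n) := by positivity
      have h14 : (0 : ℝ) ≤ K * Q := by positivity
      nlinarith
    have hLn : (L : ℝ) / n + 2 ≤ 2 * (L / n + 1) := by
      have : (0 : ℝ) ≤ L / n := by positivity
      linarith
    have hterm2 : ((T : ℝ) + g) * (L / n + 2) ≤
        2 * (t + 2 * K + 2 + K) * ((Q + (s + L) / n) * (L / n + 1)) := by
      calc ((T : ℝ) + g) * (L / n + 2) ≤
          ((t + 2 * K + 2 + K) * (Q + (s + L) / n)) * (2 * (L / n + 1)) :=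
            mul_le_mul hTG hLn (by positivity) (by positivity)
        _ = _ := by ring
    have hD : (0 : ℝ) ≤ 2 * (t + 2 * K + 2 + K) := by positivity
    calc (t : ℝ) * e * (L / ((T : ℕ) : ℝ)) + (((T : ℕ) : ℝ) + g) * (L / n + 2) ≤
        A * 6 * (L * Sg) + 2 * (t + 2 * K + 2 + K) * ((Q + (s + L) / n) * (L / n + 1)) :=
          add_le_add hterm1 hterm2
      _ ≤ C * (L * Sg) + C * ((Q + (s + L) / n) * (L / n + 1)) := by
          apply add_le_add
          · apply mul_le_mul_of_nonneg_right _ (by positivity)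
            rw [hC]
            linarith
          · apply mul_le_mul_of_nonneg_right _ hX
            rw [hC]
            have : (0 : ℝ) ≤ A * 6 := by positivity
            linarith
      _ = _ := by ring
  · -- small `r`
    push Not at hra
    obtain ⟨i, hi'⟩ := hra
    have h1 := EG_le G hy0 hy1 s L
    have h2 : (p i : ℝ) ^ r i ≤ A := (pow_le_pow_right₀ (hpR1 i) hi'.le).trans (hA1 i)
    have h3 : 1 / (p i : ℝ) ^ r i ≤ Sg :=
      single_le_sum (f := fun i => 1 / (p i : ℝ) ^ r i)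
        (fun j _ => by have := hprpos j; positivity) (mem_univ i)
    have h4 : 1 ≤ A * Sg := by
      calc (1 : ℝ) = (p i : ℝ) ^ r i * (1 / (p i : ℝ) ^ r i) := by
            rw [mul_one_div, div_self (hprpos i).ne']
        _ ≤ A * Sg := mul_le_mul h2 h3 (by have := hprpos i; positivity) hApos.le
    have h5 : (L : ℝ) ≤ A * 6 * (L * Sg) := by
      have h6 : (L : ℝ) * 1 ≤ L * (A * Sg) := mul_le_mul_of_nonneg_left h4 hL0
      have h7 : (0 : ℝ) ≤ L * (A * Sg) := by positivity
      nlinarith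
    have h6 : A * 6 * (L * Sg) ≤ C * (L * Sg) := by
      apply mul_le_mul_of_nonneg_right _ (by positivity)
      rw [hC]
      have : (0 : ℝ) ≤ 2 * (t + 2 * K + 2 + K) := by positivity
      linarith
    have h7 : 0 ≤ C * ((Q + (s + L) / n) * (L / n + 1)) := by positivity
    calc |EG G y s L| ≤ C * (L * Sg) + C * ((Q + (s + L) / n) * (L / n + 1)) := by linarith
      _ = _ := by ring

end Pool.Agent.H609.ET
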