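import Pool.Agent.H609.ET.Stm

/-!
# Project ET: `S_BLK` (adaptation of `Pool/Agent/H609/XP/Block.lean`)
-/

set_option autoImplicit false

namespace Pool.Agent.H609.ET

open Finset

namespace P_BLK

open Classical

lemma EG_eq_sum (G : ℕ → Prop) (y : ℝ) (s L : ℕ) :
    EG G y s L = ∑ j ∈ range L, ((if G (s + j) then (1 : ℝ) else 0) - y) := by
  unfold EG
  rw [sum_sub_distrib, sum_const, card_range, nsmul_eq_mul, card_filter]
  push_cast
  ring

lemma EG_add (G : ℕ → Prop) (y : ℝ) (s L₁ L₂ : ℕ) :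
    EG G y s (L₁ + L₂) = EG G y s L₁ + EG G y (s + L₁) L₂ := by
  rw [EG_eq_sum, EG_eq_sum, EG_eq_sum, sum_range_add]
  simp only [add_assoc]

lemma EG_le (G : ℕ → Prop) {y : ℝ} (hy0 : 0 ≤ y) (hy1 : y ≤ 1) (s L : ℕ) : |EG G y s L| ≤ L := by
  rw [EG_eq_sum]
  refine (abs_sum_le_sum_abs _ _).trans ?_
  calc ∑ j ∈ range L, |(if G (s + j) then (1 : ℝ) else 0) - y| ≤
      ∑ j ∈ range L, (1 : ℝ) := by
        refine sum_le_sum fun j _ => ?_
        split_ifs
        · rw [abs_le]; constructor <;> linarith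
        · rw [abs_le]; constructor <;> linarith
    _ = L := by simp

lemma sum_prod (g : ℕ → ℝ) (t P : ℕ) :
    ∑ j ∈ range (t * P), g j = ∑ i ∈ range t, ∑ m ∈ range P, g (i + t * m) := by
  induction P with
  | zero => simp
  | succ P ih =>
    rw [Nat.mul_succ, sum_range_add, ih, ← sum_add_distrib]
    refine sum_congr rfl fun i _ => ?_
    rw [sum_range_succ, add_comm (t * P) i]

/-- a window which consists of `t` full periods -/
lemma EG_run (G : ℕ → Prop) (y : ℝ) (s t P : ℕ) (e : ℝ)
    (h : ∀ i < t, |((({m ∈ range P | G (s + (i + t * m))} : Finset ℕ).card : ℕ) :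
      ℝ) - P * y| ≤ e) : |EG G y s (t * P)| ≤ t * e := by
  rw [EG_eq_sum, sum_prod]
  refine (abs_sum_le_sum_abs _ _).trans ?_
  calc ∑ i ∈ range t, |∑ m ∈ range P,
        ((if G (s + (i + t * m)) then (1 : ℝ) else 0) - y)| ≤
      ∑ i ∈ range t, e := by
        refine sum_le_sum fun i hi => ?_
        refine le_trans (le_of_eq ?_) (h i (mem_range.1 hi))
        congr 1
        rw [sum_sub_distrib, sum_const, card_range, nsmul_eq_mul, card_filter]
        push_cast
        rfl
    _ = t * e := by rw [sum_const, card_range, nsmul_eq_mul]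

/-- windows inside a segment all whose runs of length `T` are good -/
lemma EG_seg (G : ℕ → Prop) {y : ℝ} (hy0 : 0 ≤ y) (hy1 : y ≤ 1) {T : ℕ} (hT : 0 < T) (e : ℝ)
    (he : 0 ≤ e) (B : ℕ) (A : ℕ) (h : ∀ s, A ≤ s → s + T ≤ B → |EG G y s T| ≤ e) :
    ∀ L s, A ≤ s → s + L ≤ B → |EG G y s L| ≤ e * (L / T) + T := by
  intro L
  induction L using Nat.strong_induction_on with
  | _ L ih =>
    intro s hs hL
    have hTR : (0 : ℝ) < T := by exact_mod_cast hT
    rcases lt_or_ge L T with hLT | hLT
    · have h1 := EG_le G hy0 hy1 s L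
      have h2 : (L : ℝ) ≤ T := by exact_mod_cast hLT.le
      have h3 : 0 ≤ e * ((L : ℝ) / T) := by positivity
      linarith
    · obtain ⟨L', rfl⟩ : ∃ L', L = T + L' := ⟨L - T, by omega⟩
      rw [EG_add]
      have h1 := ih L' (by omega) (s + T) (by omega) (by omega)
      have h2 := h s hs (by omega)
      have h3 : (((T + L' : ℕ) : ℝ)) / T = 1 + L' / T := by
        push_cast
        field_simp
      rw [h3]
      calc |EG G y s T + EG G y (s + T) L'| ≤ |EG G y s T| + |EG G y (s + T) L'| := abs_add_le _ _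
        _ ≤ e + (e * (L' / T) + T) := add_le_add h2 h1
        _ = _ := by ring

/-- windows inside a block `[A, A + n)`, of which the first `n - g` places are good -/
lemma EG_block (G : ℕ → Prop) {y : ℝ} (hy0 : 0 ≤ y) (hy1 : y ≤ 1) {T : ℕ} (hT : 0 < T) (e : ℝ)
    (he : 0 ≤ e) (n g A : ℕ) (h : ∀ s, A ≤ s → s + T + g ≤ A + n → |EG G y s T| ≤ e) (s L : ℕ)
    (hs : A ≤ s) (hL : s + L ≤ A + n) : |EG G y s L| ≤ e * (L / T) + T + g := by
  have hTR : (0 : ℝ) < T := by exact_mod_cast hT
  rcases le_or_gt (s + L + g) (A + n) with h1 | h1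
  · have h2 := EG_seg G hy0 hy1 hT e he (A + n - g) A (fun s' hs' hs2 => h s' hs' (by omega)) L s hs
      (by omega)
    have : (0 : ℝ) ≤ g := Nat.cast_nonneg _
    linarith
  · rcases le_or_gt (A + n) (s + g) with h3 | h3
    · have h2 := EG_le G hy0 hy1 s L
      have h4 : (L : ℝ) ≤ g := by exact_mod_cast (by omega : L ≤ g)
      have h5 : 0 ≤ e * ((L : ℝ) / T) := by positivity
      linarith
    · obtain ⟨L1, hL1⟩ : ∃ L1, s + L1 + g = A + n := ⟨A + n - s - g, by omega⟩
      obtain ⟨L2, rfl⟩ : ∃ L2, L = L1 + L2 := ⟨L - L1, by omega⟩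
      rw [EG_add]
      have h2 := EG_seg G hy0 hy1 hT e he (A + n - g) A (fun s' hs' hs2 => h s' hs' (by omega)) L1 s
        hs (by omega)
      have h5 := EG_le G hy0 hy1 (s + L1) L2
      have h4 : (L2 : ℝ) ≤ g := by exact_mod_cast (by omega : L2 ≤ g)
      have h6 : e * ((L1 : ℝ) / T) ≤ e * (((L1 + L2 : ℕ) : ℝ) / T) := by
        apply mul_le_mul_of_nonneg_left _ he
        apply div_le_div_of_nonneg_right _ hTR.le
        push_cast
        have : (0 : ℝ) ≤ L2 := Nat.cast_nonneg _
        linarith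
      calc |EG G y s L1 + EG G y (s + L1) L2| ≤ |EG G y s L1| + |EG G y (s + L1) L2| :=
            abs_add_le _ _
        _ ≤ _ := by linarith

/-- windows which start at the beginning of a block -/
lemma EG_aligned (G : ℕ → Prop) {y : ℝ} (hy0 : 0 ≤ y) (hy1 : y ≤ 1) {T : ℕ} (hT : 0 < T) (e : ℝ)
    (he : 0 ≤ e) (n g N : ℕ) (hn : 0 < n)
    (h : ∀ κ s, n * κ ≤ s → s + T + g ≤ n * κ + n → s < N → |EG G y s T| ≤ e) :
    ∀ L κ, n * κ + L ≤ N → |EG G y (n * κ) L| ≤ e * (L / T) + (T + g) * (L / n + 1) := by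
  intro L
  have hTR : (0 : ℝ) < T := by exact_mod_cast hT
  have hnR : (0 : ℝ) < n := by exact_mod_cast hn
  induction L using Nat.strong_induction_on with
  | _ L ih =>
    intro κ hL
    rcases Nat.eq_zero_or_pos L with h0 | h0
    · subst h0
      have h1 := EG_le G hy0 hy1 (n * κ) 0
      have h2 : (0 : ℝ) ≤ e * (((0 : ℕ) : ℝ) / T) + (T + g) * (((0 : ℕ) : ℝ) / n + 1) := by
        positivity
      push_cast at h1 h2 ⊢
      linarith
    rcases le_or_gt L n with hLn | hLn
    · -- inside one block; bad starting places beyond `N` do not occur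
      have hb : |EG G y (n * κ) L| ≤ e * (L / T) + T + g := by
        rcases le_or_gt (n * κ + L + g) (n * κ + n) with h1 | h1
        · have h2 := EG_seg G hy0 hy1 hT e he (n * κ + L) (n * κ)
            (fun s' hs' hs2 => h κ s' hs' (by omega) (by omega)) L (n * κ) le_rfl le_rfl
          have : (0 : ℝ) ≤ g := Nat.cast_nonneg _
          linarith
        · rcases le_or_gt n g with h3 | h3
          · have h2 := EG_le G hy0 hy1 (n * κ) L
            have h4 : (L : ℝ) ≤ g := by exact_mod_cast (by omega : L ≤ g)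
            have h5 : 0 ≤ e * ((L : ℝ) / T) := by positivity
            linarith
          · obtain ⟨L1, hL1⟩ : ∃ L1, L1 + g = n := ⟨n - g, by omega⟩
            obtain ⟨L2, rfl⟩ : ∃ L2, L = L1 + L2 := ⟨L - L1, by omega⟩
            rw [EG_add]
            have h2 := EG_seg G hy0 hy1 hT e he (n * κ + L1) (n * κ)
              (fun s' hs' hs2 => h κ s' hs' (by omega) (by omega)) L1 (n * κ) le_rfl le_rfl
            have h5 := EG_le G hy0 hy1 (n * κ + L1) L2
            have h4 : (L2 : ℝ) ≤ g := by exact_mod_cast (by omega : L2 ≤ g)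
            have h6 : e * ((L1 : ℝ) / T) ≤ e * (((L1 + L2 : ℕ) : ℝ) / T) := by
              apply mul_le_mul_of_nonneg_left _ he
              apply div_le_div_of_nonneg_right _ hTR.le
              push_cast
              have : (0 : ℝ) ≤ L2 := Nat.cast_nonneg _
              linarith
            calc |EG G y (n * κ) L1 + EG G y (n * κ + L1) L2| ≤
                |EG G y (n * κ) L1| + |EG G y (n * κ + L1) L2| := abs_add_le _ _
              _ ≤ _ := by linarith
      have h7 : ((T : ℝ) + g) ≤ (T + g) * (L / n + 1) := by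
        have : (0 : ℝ) ≤ (T + g) * (L / n) := by positivity
        linarith
      linarith
    · obtain ⟨L', rfl⟩ : ∃ L', L = n + L' := ⟨L - n, by omega⟩
      rw [EG_add]
      have h1 := ih L' (by omega) (κ + 1) (by rw [Nat.mul_succ]; omega)
      rw [Nat.mul_succ] at h1
      have h2 := ih n (by omega) κ (by omega)
      rcases Nat.eq_zero_or_pos L' with h00 | h00
      · omega
      have h3 : ((n : ℕ) : ℝ) / n = 1 := div_self hnR.ne'
      -- the first block
      have hb : |EG G y (n * κ) n| ≤ e * (n / T) + T + g := by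
        refine EG_block G hy0 hy1 hT e he n g (n * κ) (fun s' hs' hs2 => h κ s' hs' hs2 (by omega))
          (n * κ) n le_rfl le_rfl
      calc |EG G y (n * κ) n + EG G y (n * κ + n) L'| ≤
          |EG G y (n * κ) n| + |EG G y (n * κ + n) L'| := abs_add_le _ _
        _ ≤ (e * (n / T) + T + g) + (e * (L' / T) + (T + g) * (L' / n + 1)) := add_le_add hb h1
        _ = _ := by
          push_cast
          field_simp
          ring

/-- **All windows.** -/
theorem EG_all (G : ℕ → Prop) {y : ℝ} (hy0 : 0 ≤ y) (hy1 : y ≤ 1) {T : ℕ} (hT : 0 < T) (e : ℝ)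
    (he : 0 ≤ e) (n g N : ℕ) (hn : 0 < n)
    (h : ∀ κ s, n * κ ≤ s → s + T + g ≤ n * κ + n → s < N → |EG G y s T| ≤ e) (s L : ℕ)
    (hsL : s + L ≤ N) : |EG G y s L| ≤ e * (L / T) + (T + g) * (L / n + 2) := by
  have hTR : (0 : ℝ) < T := by exact_mod_cast hT
  have hnR : (0 : ℝ) < n := by exact_mod_cast hn
  set κ := s / n with hκ
  have h1 : n * κ ≤ s := Nat.mul_div_le s n
  have h2 : s < n * κ + n := by
    have := Nat.lt_mul_div_succ s hn
    rw [Nat.mul_succ] at this
    exact this
  have hnn : (0 : ℝ) ≤ (T + g) * (L / n) := by positivity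
  -- a window inside the block
  have hb : ∀ L', s + L' ≤ n * κ + n → s + L' ≤ N → |EG G y s L'| ≤ e * (L' / T) + T + g := by
    intro L' hL1 hL2
    rcases le_or_gt (s + L' + g) (n * κ + n) with h3 | h3
    · have h4 := EG_seg G hy0 hy1 hT e he (s + L') s
        (fun s' hs' hs2 => h κ s' (by omega) (by omega) (by omega)) L' s le_rfl le_rfl
      have : (0 : ℝ) ≤ g := Nat.cast_nonneg _
      linarith
    · rcases le_or_gt (n * κ + n) (s + g) with h4 | h4
      · have h5 := EG_le G hy0 hy1 s L'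
        have h6 : (L' : ℝ) ≤ g := by exact_mod_cast (by omega : L' ≤ g)
        have h7 : 0 ≤ e * ((L' : ℝ) / T) := by positivity
        linarith
      · obtain ⟨L1, hL1'⟩ : ∃ L1, s + L1 + g = n * κ + n := ⟨n * κ + n - s - g, by omega⟩
        obtain ⟨L2, rfl⟩ : ∃ L2, L' = L1 + L2 := ⟨L' - L1, by omega⟩
        rw [EG_add]
        have h2 := EG_seg G hy0 hy1 hT e he (s + L1) s
          (fun s' hs' hs2 => h κ s' (by omega) (by omega) (by omega)) L1 s le_rfl le_rfl
        have h5 := EG_le G hy0 hy1 (s + L1) L2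
        have h4 : (L2 : ℝ) ≤ g := by exact_mod_cast (by omega : L2 ≤ g)
        have h6 : e * ((L1 : ℝ) / T) ≤ e * (((L1 + L2 : ℕ) : ℝ) / T) := by
          apply mul_le_mul_of_nonneg_left _ he
          apply div_le_div_of_nonneg_right _ hTR.le
          push_cast
          have : (0 : ℝ) ≤ L2 := Nat.cast_nonneg _
          linarith
        calc |EG G y s L1 + EG G y (s + L1) L2| ≤
            |EG G y s L1| + |EG G y (s + L1) L2| := abs_add_le _ _
          _ ≤ _ := by linarith
  rcases le_or_gt (s + L) (n * κ + n) with h3 | h3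
  · have h4 := hb L h3 hsL
    have h5 : (0 : ℝ) ≤ (T : ℝ) + g := by positivity
    linarith
  · obtain ⟨L1, hL1⟩ : ∃ L1, s + L1 = n * κ + n := ⟨n * κ + n - s, by omega⟩
    obtain ⟨L2, rfl⟩ : ∃ L2, L = L1 + L2 := ⟨L - L1, by omega⟩
    rw [EG_add]
    have h4 := hb L1 (by omega) (by omega)
    have h5 := EG_aligned G hy0 hy1 hT e he n g N hn h L2 (κ + 1) (by rw [Nat.mul_succ]; omega)
    rw [Nat.mul_succ, ← hL1] at h5
    have h6 : (0 : ℝ) ≤ (T + g) * (L1 / n) := by positivity
    calc |EG G y s L1 + EG G y (s + L1) L2| ≤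
        |EG G y s L1| + |EG G y (s + L1) L2| := abs_add_le _ _
      _ ≤ (e * (L1 / T) + T + g) + (e * (L2 / T) + (T + g) * (L2 / n + 1)) := add_le_add h4 h5
      _ ≤ (e * (L1 / T) + T + g) + (e * (L2 / T) + (T + g) * (L2 / n + 1)) +
          (T + g) * (L1 / n) := by linarith
      _ = _ := by
        push_cast
        field_simp
        ring

end P_BLK

theorem t_BLK : S_BLK := by
  classical
  intro G y hy0 hy1 t P ht hP e he n g N hn h s L hsL
  refine P_BLK.EG_all G hy0 hy1 (Nat.mul_pos ht hP) (t * e) (by positivity) n g N hn ?_ s L hsL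
  intro κ s' h1 h2 h3
  exact P_BLK.EG_run G y s' t P e (h κ s' h1 h2 h3)

end Pool.Agent.H609.ET
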