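import Pool.Agent.H609.ET.Stm
import Pool.Agent.H609.XP.Count

set_option autoImplicit false

namespace Pool.Agent.H609.ET

open Finset Pool.Agent.H609.XP

namespace P_CNT

/-- the order of `u` divides `p ^ (r - a)` -/
lemma period {p : ℕ} (hp : p.Prime) (hp2 : Odd p) {a : ℕ} {u w : ℤ} (ha : 1 ≤ a)
    (hu : u = 1 + (p : ℤ) ^ a * w) (hw : ¬ (p : ℤ) ∣ w) {r : ℕ} (hr : a ≤ r) :
    (p : ℤ) ^ r ∣ u ^ (p ^ (r - a)) - 1 := by
  have hpZ : Prime (p : ℤ) := Nat.prime_iff_prime_int.1 hp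
  have hu1 : ¬ (p : ℤ) ∣ u := by
    intro h1
    have h2 : (p : ℤ) ∣ (p : ℤ) ^ a * w := Dvd.dvd.mul_right (dvd_pow_self _ (by omega)) _
    have h3 : (p : ℤ) ∣ 1 := by
      have := dvd_sub h1 h2
      rwa [hu, add_sub_cancel_right] at this
    exact hpZ.not_isUnit (isUnit_of_dvd_one h3)
  have hd : (p : ℤ) ∣ u - 1 := by
    rw [hu, add_sub_cancel_left]
    exact Dvd.dvd.mul_right (dvd_pow_self _ (by omega)) _
  have h2 := Int.emultiplicity_pow_sub_pow hp hp2 hd hu1 (p ^ (r - a))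
  rw [one_pow] at h2
  have h3 : emultiplicity (p : ℤ) (u - 1) = a := by
    rw [hu, add_sub_cancel_left]
    rw [emultiplicity_mul hpZ, emultiplicity_pow_self_of_prime hpZ,
      emultiplicity_eq_zero.2 hw, add_zero]
  rw [h3, emultiplicity_pow_self_of_prime hp.prime] at h2
  apply pow_dvd_of_le_emultiplicity
  rw [h2]
  norm_cast
  omega

theorem main {p : ℕ} (hp : p.Prime) (hp2 : Odd p) {a : ℕ} {u w : ℤ} (ha : 1 ≤ a)
    (hu : u = 1 + (p : ℤ) ^ a * w) (hw : ¬ (p : ℤ) ∣ w) {r : ℕ} (hr : a ≤ r) {V : ℤ}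
    (hV : ¬ (p : ℤ) ∣ V) :
    (∀ z : ℝ, z ≤ (p : ℝ) ^ r → z / (p : ℝ) ^ a - 2 ≤
      ((({m ∈ range (p ^ (r - a)) | (((V * u ^ m) % (p : ℤ) ^ r : ℤ) : ℝ) < z} : Finset ℕ).card : ℕ) :
        ℝ)) ∧
    (∀ z : ℝ, 0 ≤ z →
      ((({m ∈ range (p ^ (r - a)) | (((V * u ^ m) % (p : ℤ) ^ r : ℤ) : ℝ) < z} : Finset ℕ).card : ℕ) :
        ℝ) ≤ z / (p : ℝ) ^ a + 2) ∧
    (∀ m : ℕ, (V * u ^ m) % (p : ℤ) ^ r = (V * u ^ (m % p ^ (r - a))) % (p : ℤ) ^ r) ∧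
    (∀ m : ℕ, 1 ≤ (V * u ^ m) % (p : ℤ) ^ r ∧ (V * u ^ m) % (p : ℤ) ^ r < (p : ℤ) ^ r) := by
  have hpZ : Prime (p : ℤ) := Nat.prime_iff_prime_int.1 hp
  have hp0 : 0 < p := hp.pos
  have hpR : (0 : ℝ) < p := by exact_mod_cast hp0
  have hpr : (0 : ℝ) < (p : ℝ) ^ r := by positivity
  have hprZ : (0 : ℤ) < (p : ℤ) ^ r := by positivity
  set P := p ^ (r - a) with hP
  set Q : ℤ := (p : ℤ) ^ r with hQ
  have hQR : ((Q : ℤ) : ℝ) = (p : ℝ) ^ r := by rw [hQ]; push_cast; rfl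
  have hr1 : 1 ≤ r := by omega
  have hu1 : ¬ (p : ℤ) ∣ u := by
    intro h1
    have h2 : (p : ℤ) ∣ (p : ℤ) ^ a * w := Dvd.dvd.mul_right (dvd_pow_self _ (by omega)) _
    have h3 : (p : ℤ) ∣ 1 := by
      have := dvd_sub h1 h2
      rwa [hu, add_sub_cancel_right] at this
    exact hpZ.not_isUnit (isUnit_of_dvd_one h3)
  set ρ : ℕ → ℤ := fun m => (V * u ^ m) % Q with hρ
  have hρ0 : ∀ m, 0 ≤ ρ m := fun m => Int.emod_nonneg _ hprZ.ne'
  have hρQ : ∀ m, ρ m < Q := fun m => Int.emod_lt_of_pos _ hprZ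
  have hρ1 : ∀ m, 1 ≤ ρ m := by
    intro m
    rcases (hρ0 m).lt_or_eq with h | h
    · exact h
    · exfalso
      have h1 : Q ∣ V * u ^ m := Int.dvd_of_emod_eq_zero h.symm
      have h2 : (p : ℤ) ∣ V * u ^ m := dvd_trans (dvd_pow_self _ (by omega)) h1
      rcases hpZ.dvd_or_dvd h2 with h5 | h5
      · exact hV h5
      · exact hu1 (hpZ.dvd_of_dvd_pow h5)
  have hρinj : Set.InjOn ρ (range P : Finset ℕ) := by
    intro i hi j hj hij
    rw [coe_range, Set.mem_Iio] at hi hj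
    have h1 : (V * u ^ i) ≡ (V * u ^ j) [ZMOD Q] := hij
    have h2 : Q ∣ V * u ^ i - V * u ^ j := Int.ModEq.dvd h1.symm
    rcases lt_trichotomy i j with h | h | h
    · exfalso
      refine pow_inj hp hp2 ha hu hw hr hV hj h ?_
      rw [← neg_sub]
      exact (dvd_neg).2 h2
    · exact h
    · exact (pow_inj hp hp2 ha hu hw hr hV hi h h2).elim
  set S : Finset ℤ := {x ∈ Ico (0 : ℤ) Q | x ≡ V [ZMOD (p ^ a : ℕ)]} with hS
  have hpa : (0 : ℤ) < ((p ^ a : ℕ) : ℤ) := by positivity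
  have hup : ∀ m : ℕ, u ^ m ≡ 1 [ZMOD (p ^ a : ℕ)] := by
    intro m
    have h1 : u ≡ 1 [ZMOD (p ^ a : ℕ)] := by
      rw [hu]
      have : (1 : ℤ) + (p : ℤ) ^ a * w ≡ 1 + 0 [ZMOD (p ^ a : ℕ)] := by
        apply Int.ModEq.add_left
        rw [Int.modEq_zero_iff_dvd]
        push_cast
        exact dvd_mul_right _ _
      simpa using this
    simpa using h1.pow m
  have hsub : (range P).image ρ ⊆ S := by
    intro x hx
    rw [mem_image] at hx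
    obtain ⟨m, hm, rfl⟩ := hx
    rw [hS, mem_filter, mem_Ico]
    refine ⟨⟨hρ0 m, hρQ m⟩, ?_⟩
    have h1 : ρ m ≡ V * u ^ m [ZMOD Q] := Int.mod_modEq _ _
    have h2 : ρ m ≡ V * u ^ m [ZMOD (p ^ a : ℕ)] := by
      apply h1.of_dvd
      rw [hQ]
      push_cast
      exact pow_dvd_pow _ hr
    refine h2.trans ?_
    simpa using (Int.ModEq.mul_left V (hup m))
  have hcardS : S.card = P := by
    have h1 := Int.Ico_filter_modEq_card (a := 0) (b := Q) hpa V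
    rw [← hS] at h1
    have h2 : Q = (p ^ a : ℕ) * (P : ℤ) := by
      rw [hQ, hP]
      push_cast
      rw [← pow_add]
      congr 1
      omega
    have h3 : ⌈((Q : ℚ) - (V : ℚ)) / (((p ^ a : ℕ) : ℤ) : ℚ)⌉ =
        ⌈(((0 : ℤ) : ℚ) - (V : ℚ)) / (((p ^ a : ℕ) : ℤ) : ℚ)⌉ + P := by
      rw [← Int.ceil_add_natCast]
      congr 1
      have h4 : (((p ^ a : ℕ) : ℤ) : ℚ) ≠ 0 := by positivity
      rw [h2]
      push_cast at h4 ⊢
      field_simp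
      ring
    rw [h3] at h1
    have h5 : max (⌈(((0 : ℤ) : ℚ) - (V : ℚ)) / (((p ^ a : ℕ) : ℤ) : ℚ)⌉ + (P : ℤ) -
        ⌈(((0 : ℤ) : ℚ) - (V : ℚ)) / (((p ^ a : ℕ) : ℤ) : ℚ)⌉) 0 = P := by
      rw [add_sub_cancel_left]
      exact max_eq_left (by positivity)
    rw [h5] at h1
    exact_mod_cast h1
  have himg : (range P).image ρ = S := by
    apply eq_of_subset_of_card_le hsub
    rw [hcardS, card_image_of_injOn hρinj, card_range]
  -- counting the residues below `z`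
  have hcnt : ∀ z : ℝ, ({m ∈ range P | (ρ m : ℝ) < z} : Finset ℕ).card =
      ({x ∈ S | (x : ℝ) < z} : Finset ℤ).card := by
    intro z
    rw [← himg, filter_image, card_image_of_injOn]
    exact hρinj.mono (by
      intro x hx
      rw [mem_coe, mem_filter] at hx
      exact hx.1)
  have hpaR : (((p ^ a : ℕ) : ℝ)) = (p : ℝ) ^ a := by push_cast; rfl
  have hPR : ((P : ℕ) : ℝ) = (p : ℝ) ^ (r - a) := by rw [hP]; push_cast; rfl
  have hPQ : (p : ℝ) ^ r / (p : ℝ) ^ a = (p : ℝ) ^ (r - a) := by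
    rw [div_eq_iff (by positivity), ← pow_add]
    congr 1
    omega
  have hpa1 : (1 : ℝ) ≤ (p : ℝ) ^ a := one_le_pow₀ (by exact_mod_cast hp0)
  have hlow : ∀ z : ℝ, z ≤ (p : ℝ) ^ r → z / (p : ℝ) ^ a - 2 ≤
      ((({m ∈ range P | (ρ m : ℝ) < z} : Finset ℕ).card : ℕ) : ℝ) := by
    intro z hz
    rcases le_or_gt 0 z with h0 | h0
    · have h1 := (abs_le.1 (class_count (p ^ a) (Nat.one_le_pow _ _ hp0) V z h0)).1
      rw [hpaR] at h1
      have h2 : ({x ∈ Ico (0 : ℤ) ⌈z⌉ | x ≡ V [ZMOD (p ^ a : ℕ)]} : Finset ℤ).card ≤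
          ({x ∈ S | (x : ℝ) < z} : Finset ℤ).card := by
        apply card_le_card
        intro x hx
        rw [mem_filter, mem_Ico] at hx
        rw [mem_filter, hS, mem_filter, mem_Ico]
        have h3 : (x : ℝ) < z := Int.lt_ceil.1 hx.1.2
        refine ⟨⟨⟨hx.1.1, ?_⟩, hx.2⟩, h3⟩
        have h4 : (x : ℝ) < ((Q : ℤ) : ℝ) := by rw [hQR]; linarith
        exact_mod_cast h4
      rw [hcnt z]
      have h3 : ((({x ∈ Ico (0 : ℤ) ⌈z⌉ | x ≡ V [ZMOD (p ^ a : ℕ)]} : Finset ℤ).card : ℕ) : ℝ) ≤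
          ((({x ∈ S | (x : ℝ) < z} : Finset ℤ).card : ℕ) : ℝ) := by exact_mod_cast h2
      linarith
    · have h1 : z / (p : ℝ) ^ a ≤ 0 := div_nonpos_of_nonpos_of_nonneg h0.le (by positivity)
      have h2 : (0 : ℝ) ≤ ((({m ∈ range P | (ρ m : ℝ) < z} : Finset ℕ).card : ℕ) : ℝ) :=
        Nat.cast_nonneg _
      linarith
  have hupp : ∀ z : ℝ, 0 ≤ z →
      ((({m ∈ range P | (ρ m : ℝ) < z} : Finset ℕ).card : ℕ) : ℝ) ≤ z / (p : ℝ) ^ a + 2 := by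
    intro z h0
    have h1 := (abs_le.1 (class_count (p ^ a) (Nat.one_le_pow _ _ hp0) V z h0)).2
    rw [hpaR] at h1
    have h2 : ({x ∈ S | (x : ℝ) < z} : Finset ℤ).card ≤
        ({x ∈ Ico (0 : ℤ) ⌈z⌉ | x ≡ V [ZMOD (p ^ a : ℕ)]} : Finset ℤ).card := by
      apply card_le_card
      intro x hx
      rw [mem_filter, hS, mem_filter, mem_Ico] at hx
      rw [mem_filter, mem_Ico]
      exact ⟨⟨hx.1.1.1, Int.lt_ceil.2 hx.2⟩, hx.1.2⟩
    rw [hcnt z]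
    have h3 : ((({x ∈ S | (x : ℝ) < z} : Finset ℤ).card : ℕ) : ℝ) ≤
        ((({x ∈ Ico (0 : ℤ) ⌈z⌉ | x ≡ V [ZMOD (p ^ a : ℕ)]} : Finset ℤ).card : ℕ) : ℝ) := by
      exact_mod_cast h2
    linarith
  refine ⟨hlow, hupp, ?_, fun m => ⟨hρ1 m, hρQ m⟩⟩
  intro m
  have h1 : u ^ P ≡ 1 [ZMOD Q] := ((Int.modEq_iff_dvd).2 (period hp hp2 ha hu hw hr)).symm
  have h2 : u ^ m = (u ^ P) ^ (m / P) * u ^ (m % P) := by
    rw [← pow_mul, ← pow_add, Nat.div_add_mod]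
  have h3 : V * u ^ m ≡ V * u ^ (m % P) [ZMOD Q] := by
    apply Int.ModEq.mul_left
    rw [h2]
    have h4 := (h1.pow (m / P)).mul_right (u ^ (m % P))
    rwa [one_pow, one_mul] at h4
  exact h3

end P_CNT

theorem t_CNT : S_CNT := by
  intro p hp hp2 a u w ha hu hw r hr V hV
  exact P_CNT.main hp hp2 ha hu hw hr hV

end Pool.Agent.H609.ET
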