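import Pool.Agent.H609.ET.Stm

set_option autoImplicit false

namespace Pool.Agent.H609.ET

open Finset

namespace P_CRT

/-- injectivity of the reduction map -/
theorem inj {k : ℕ} (Q : Fin k → ℕ) (hQ : ∀ i, 0 < Q i)
    (hco : ∀ i j, i ≠ j → (Q i).Coprime (Q j)) {m n : ℕ} (hm : m < ∏ i, Q i) (hn : n < ∏ i, Q i)
    (h : ∀ i, m % Q i = n % Q i) : m = n := by
  have h1 : ((∏ i, Q i : ℕ) : ℤ) ∣ (n : ℤ) - m := by
    rw [Nat.cast_prod]
    refine Finset.prod_dvd_of_coprime ?_ ?_
    · intro i _ j _ hij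
      exact Nat.isCoprime_iff_coprime.mpr (hco i j hij)
    · intro i _
      exact (Nat.modEq_iff_dvd).mp (h i)
  have h2 : m ≡ n [MOD ∏ i, Q i] := (Nat.modEq_iff_dvd).mpr h1
  have h3 : m % (∏ i, Q i) = n % (∏ i, Q i) := h2
  rwa [Nat.mod_eq_of_lt hm, Nat.mod_eq_of_lt hn] at h3

end P_CRT

theorem t_CRT : S_CRT := by
  classical
  intro k Q hQ hco A
  have himg : (range (∏ i, Q i)).image (fun m => fun i : Fin k => m % Q i) =
      Fintype.piFinset fun i => range (Q i) := by
    refine Finset.eq_of_subset_of_card_le ?_ ?_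
    · intro f hf
      obtain ⟨m, _, rfl⟩ := Finset.mem_image.mp hf
      exact Fintype.mem_piFinset.mpr fun i => mem_range.mpr (Nat.mod_lt _ (hQ i))
    · rw [Fintype.card_piFinset, Finset.card_image_of_injOn, card_range]
      · simp
      · intro m hm n hn h
        exact P_CRT.inj Q hQ hco (mem_range.mp (Finset.mem_coe.mp hm))
          (mem_range.mp (Finset.mem_coe.mp hn)) fun i => congrFun h i
  rw [← Fintype.card_piFinset]
  refine Finset.card_bij (fun m _ => fun i : Fin k => m % Q i) ?_ ?_ ?_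
  · intro m hm
    rw [Finset.mem_filter] at hm
    refine Fintype.mem_piFinset.mpr fun i => ?_
    rw [Finset.mem_filter]
    exact ⟨mem_range.mpr (Nat.mod_lt _ (hQ i)), hm.2 i⟩
  · intro m hm n hn h
    rw [Finset.mem_filter] at hm hn
    exact P_CRT.inj Q hQ hco (mem_range.mp hm.1) (mem_range.mp hn.1) fun i => congrFun h i
  · intro f hf
    have hf' := Fintype.mem_piFinset.mp hf
    have h1 : f ∈ Fintype.piFinset fun i => range (Q i) := by
      refine Fintype.mem_piFinset.mpr fun i => ?_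
      exact (Finset.mem_filter.mp (hf' i)).1
    rw [← himg] at h1
    obtain ⟨m, hm, rfl⟩ := Finset.mem_image.mp h1
    refine ⟨m, ?_, rfl⟩
    rw [Finset.mem_filter]
    exact ⟨hm, fun i => (Finset.mem_filter.mp (hf' i)).2⟩

end Pool.Agent.H609.ET
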