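import Pool.Agent.H609.ET.Stm

/-!
# Project ET: the functions `1, (1 + c i x) ^ (1 / d i)` are linearly independent over `ℚ(x)`
-/

set_option autoImplicit false

namespace Pool.Agent.H609.ET

namespace P_IND

section Poly

open Polynomial

lemma xder (ρ : ℚ) (m : ℕ) (A : ℚ[X]) :
    (X - C ρ) * derivative ((X - C ρ) ^ m * A) =
      (X - C ρ) ^ m * ((m : ℚ[X]) * A + (X - C ρ) * derivative A) := by
  cases m with
  | zero => simp
  | succ n =>
    rw [derivative_mul, derivative_X_sub_C_pow]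
    simp only [Nat.add_sub_cancel, C_eq_natCast]
    ring

lemma L (ci cj : ℚ) (di dj : ℕ) (hci : ci ≠ 0) (hdi : 2 ≤ di) (hcj : ci ≠ cj) (hdj : 1 ≤ dj)
    (A B : ℚ[X]) (hA : A ≠ 0) (hB : B ≠ 0)
    (h : (C (di : ℚ) * (1 + C ci * X)) * (C (dj : ℚ) * (1 + C cj * X)) *
      (A * derivative B - B * derivative A) =
      A * B * (C ci * (C (dj : ℚ) * (1 + C cj * X)) - C cj * (C (di : ℚ) * (1 + C ci * X)))) :
    False := by
  set ρ : ℚ := -1 / ci with hρ
  obtain ⟨A1, hA1, hA2⟩ := Polynomial.exists_eq_pow_rootMultiplicity_mul_and_not_dvd A hA ρ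
  obtain ⟨B1, hB1, hB2⟩ := Polynomial.exists_eq_pow_rootMultiplicity_mul_and_not_dvd B hB ρ
  set m := A.rootMultiplicity ρ
  set l := B.rootMultiplicity ρ
  have hA3 : A1.eval ρ ≠ 0 := fun h0 => hA2 (Polynomial.dvd_iff_isRoot.2 h0)
  have hB3 : B1.eval ρ ≠ 0 := fun h0 => hB2 (Polynomial.dvd_iff_isRoot.2 h0)
  have h1 : (1 : ℚ[X]) + C ci * X = C ci * (X - C ρ) := by
    have : C ci * C ρ = -1 := by
      rw [← C_mul, hρ, mul_div_cancel₀ _ hci]
      simp
    rw [mul_sub, this]; ring
  have dA : (X - C ρ) * derivative A = (X - C ρ) ^ m * ((m : ℚ[X]) * A1 + (X - C ρ) * derivative A1) := by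
    conv_lhs => rw [hA1]
    exact xder ρ m A1
  have dB : (X - C ρ) * derivative B = (X - C ρ) ^ l * ((l : ℚ[X]) * B1 + (X - C ρ) * derivative B1) := by
    conv_lhs => rw [hB1]
    exact xder ρ l B1
  have hX : (X - C ρ : ℚ[X]) ≠ 0 := Polynomial.X_sub_C_ne_zero ρ
  have h2 : (X - C ρ) ^ (m + l) * ((C (di : ℚ) * C ci) * (C (dj : ℚ) * (1 + C cj * X)) *
      (A1 * ((l : ℚ[X]) * B1 + (X - C ρ) * derivative B1) -
        B1 * ((m : ℚ[X]) * A1 + (X - C ρ) * derivative A1))) =
      (X - C ρ) ^ (m + l) * (A1 * B1 * (C ci * (C (dj : ℚ) * (1 + C cj * X)) -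
        C cj * (C (di : ℚ) * (C ci * (X - C ρ))))) := by
    rw [h1] at h
    have e1 : (C (di : ℚ) * (C ci * (X - C ρ))) * (C (dj : ℚ) * (1 + C cj * X)) *
      (A * derivative B - B * derivative A) =
      (C (di : ℚ) * C ci) * (C (dj : ℚ) * (1 + C cj * X)) *
      (A * ((X - C ρ) * derivative B) - B * ((X - C ρ) * derivative A)) := by ring
    rw [e1, dA, dB] at h
    calc _ = (C (di : ℚ) * C ci) * (C (dj : ℚ) * (1 + C cj * X)) *
        (((X - C ρ) ^ m * A1) * ((X - C ρ) ^ l * ((l : ℚ[X]) * B1 + (X - C ρ) * derivative B1)) -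
        ((X - C ρ) ^ l * B1) * ((X - C ρ) ^ m * ((m : ℚ[X]) * A1 + (X - C ρ) * derivative A1))) := by
          rw [pow_add]; ring
      _ = (C (di : ℚ) * C ci) * (C (dj : ℚ) * (1 + C cj * X)) *
        (A * ((X - C ρ) ^ l * ((l : ℚ[X]) * B1 + (X - C ρ) * derivative B1)) -
        B * ((X - C ρ) ^ m * ((m : ℚ[X]) * A1 + (X - C ρ) * derivative A1))) := by
          rw [← hA1, ← hB1]
      _ = A * B * (C ci * (C (dj : ℚ) * (1 + C cj * X)) -
          C cj * (C (di : ℚ) * (C ci * (X - C ρ)))) := h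
      _ = ((X - C ρ) ^ m * A1) * ((X - C ρ) ^ l * B1) * (C ci * (C (dj : ℚ) * (1 + C cj * X)) -
          C cj * (C (di : ℚ) * (C ci * (X - C ρ)))) := by rw [← hA1, ← hB1]
      _ = _ := by rw [pow_add]; ring
  have h3 := mul_left_cancel₀ (pow_ne_zero _ hX) h2
  have h4 := congrArg (Polynomial.eval ρ) h3
  simp only [eval_mul, eval_add, eval_sub, eval_C, eval_X, eval_one, eval_natCast, sub_self,
    zero_mul, mul_zero, add_zero, sub_zero] at h4
  have hcjρ : 1 + cj * ρ ≠ 0 := by
    rw [hρ]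
    intro h0
    apply hcj
    field_simp at h0
    linarith
  have hdj0 : (dj : ℚ) ≠ 0 := by
    have : 0 < dj := hdj
    positivity
  have h5 : (di : ℚ) * ((l : ℚ) - m) = 1 := by
    have hne : ci * (dj * (1 + cj * ρ)) * (A1.eval ρ * B1.eval ρ) ≠ 0 :=
      mul_ne_zero (mul_ne_zero hci (mul_ne_zero hdj0 hcjρ)) (mul_ne_zero hA3 hB3)
    apply mul_right_cancel₀ hne
    linear_combination h4
  have h6 : (di : ℤ) * ((l : ℤ) - m) = 1 := by
    exact_mod_cast h5
  have h7 : (di : ℤ) ∣ 1 := ⟨_, h6.symm⟩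
  have h8 : (di : ℤ) ≤ 1 := Int.le_of_dvd one_pos h7
  omega

end Poly

open PowerSeries in
lemma indep {ι : Type} [DecidableEq ι] (F : ι → ℚ⟦X⟧) (e n : ι → Polynomial ℚ)
    (hF : ∀ i, F i ≠ 0) (he : ∀ i, e i ≠ 0)
    (hder : ∀ i, (e i : ℚ⟦X⟧) * derivative ℚ (F i) = (n i : ℚ⟦X⟧) * F i)
    (hne : ∀ i j, i ≠ j → ∀ A B : Polynomial ℚ, A ≠ 0 → B ≠ 0 →
      e i * e j * (A * Polynomial.derivative B - B * Polynomial.derivative A) ≠
        A * B * (n i * e j - n j * e i))
    (s : Finset ι) : ∀ P : ι → Polynomial ℚ, ∑ i ∈ s, (P i : ℚ⟦X⟧) * F i = 0 → ∀ i ∈ s, P i = 0 := by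
  classical
  induction s using Finset.induction_on with
  | empty => intro P _ i hi; simp at hi
  | insert j t hj ih =>
    intro P hP
    by_cases hPj : P j = 0
    · rw [Finset.sum_insert hj, hPj, Polynomial.coe_zero, zero_mul, zero_add] at hP
      intro i hi
      rcases Finset.mem_insert.1 hi with rfl | hi
      · exact hPj
      · exact ih P hP i hi
    · exfalso
      set s := insert j t with hs
      set N : Polynomial ℚ := ∏ l ∈ s, e l with hN
      have hN0 : N ≠ 0 := Finset.prod_ne_zero_iff.2 fun i _ => he i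
      set M : ι → Polynomial ℚ := fun i => ∏ l ∈ s.erase i, e l with hM
      have hNM : ∀ i ∈ s, e i * M i = N := fun i hi => Finset.mul_prod_erase s e hi
      set Q : ι → Polynomial ℚ := fun i => N * Polynomial.derivative (P i) + P i * n i * M i with hQ
      have hQs : ∑ i ∈ s, (Q i : ℚ⟦X⟧) * F i = 0 := by
        have h1 : ∑ i ∈ s, (Q i : ℚ⟦X⟧) * F i =
            (N : ℚ⟦X⟧) * derivative ℚ (∑ i ∈ s, (P i : ℚ⟦X⟧) * F i) := by
          rw [map_sum, Finset.mul_sum]
          refine Finset.sum_congr rfl fun i hi => ?_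
          rw [Derivation.leibniz, PowerSeries.derivative_coe, smul_eq_mul, smul_eq_mul]
          have h2 := hder i
          have h3 : ((e i : ℚ⟦X⟧)) * (M i : ℚ⟦X⟧) = (N : ℚ⟦X⟧) := by
            rw [← Polynomial.coe_mul, hNM i hi]
          simp only [hQ, Polynomial.coe_add, Polynomial.coe_mul]
          linear_combination (-(P i : ℚ⟦X⟧) * (M i : ℚ⟦X⟧)) * h2 +
            ((P i : ℚ⟦X⟧) * derivative ℚ (F i)) * h3
        rw [h1, hP, map_zero, mul_zero]
      have hjs : j ∈ s := Finset.mem_insert_self j t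
      have hR : ∑ i ∈ t, ((P j * Q i - Q j * P i : Polynomial ℚ) : ℚ⟦X⟧) * F i = 0 := by
        have h1 : ∑ i ∈ s, ((P j * Q i - Q j * P i : Polynomial ℚ) : ℚ⟦X⟧) * F i = 0 := by
          have h2 : ∑ i ∈ s, ((P j * Q i - Q j * P i : Polynomial ℚ) : ℚ⟦X⟧) * F i =
              (P j : ℚ⟦X⟧) * ∑ i ∈ s, (Q i : ℚ⟦X⟧) * F i -
                (Q j : ℚ⟦X⟧) * ∑ i ∈ s, (P i : ℚ⟦X⟧) * F i := by
            rw [Finset.mul_sum, Finset.mul_sum, ← Finset.sum_sub_distrib]
            refine Finset.sum_congr rfl fun i _ => ?_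
            rw [Polynomial.coe_sub, Polynomial.coe_mul, Polynomial.coe_mul]
            ring
          rw [h2, hQs, hP, mul_zero, mul_zero, sub_zero]
        rw [hs, Finset.sum_insert hj] at h1
        rw [show P j * Q j - Q j * P j = 0 by ring, Polynomial.coe_zero, zero_mul, zero_add] at h1
        exact h1
      have hkey := ih (fun i => P j * Q i - Q j * P i) hR
      have hPt : ∀ i ∈ t, P i = 0 := by
        intro i hi
        by_contra hPi
        have hij : j ≠ i := by rintro rfl; exact hj hi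
        have his : i ∈ s := Finset.mem_insert_of_mem hi
        have h1 := hkey i hi
        simp only [hQ] at h1
        have h2 := hNM i his
        have h3 := hNM j hjs
        refine hne j i hij (P j) (P i) hPj hPi ?_
        apply mul_left_cancel₀ hN0
        linear_combination (e i * e j) * h1 + (-(P j * P i * n i * e j)) * h2 +
          (P i * P j * n j * e i) * h3
      rw [hs, Finset.sum_insert hj, Finset.sum_eq_zero, add_zero] at hP
      · rcases mul_eq_zero.1 hP with h | h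
        · exact hPj (Polynomial.coe_eq_zero_iff.1 h)
        · exact hF j h
      · intro i hi
        rw [hPt i hi, Polynomial.coe_zero, zero_mul]

open PowerSeries in
lemma der (c : ℚ) (d : ℕ) (hd : 1 ≤ d) (F : ℚ⟦X⟧) (hF : F ^ d = 1 + C c * X) :
    ((Polynomial.C (d : ℚ) * (1 + Polynomial.C c * Polynomial.X) : Polynomial ℚ) : ℚ⟦X⟧) *
      derivative ℚ F = ((Polynomial.C c : Polynomial ℚ) : ℚ⟦X⟧) * F := by
  have h1 := congrArg (derivative ℚ) hF
  rw [Derivation.leibniz_pow] at h1
  have h2 : derivative ℚ (1 + C c * X : ℚ⟦X⟧) = C c := by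
    rw [map_add, Derivation.leibniz]
    simp [PowerSeries.derivative_C, PowerSeries.derivative_X]
  rw [h2] at h1
  have h3 : ((Polynomial.C (d : ℚ) * (1 + Polynomial.C c * Polynomial.X) : Polynomial ℚ) : ℚ⟦X⟧) =
      (d : ℚ⟦X⟧) * F ^ d := by
    have hdc : ((Polynomial.C (d : ℚ) : Polynomial ℚ) : ℚ⟦X⟧) = (d : ℚ⟦X⟧) := by
      rw [Polynomial.coe_C]
      exact map_natCast _ d
    rw [hF, Polynomial.coe_mul, hdc]
    congr 1
    rw [Polynomial.coe_add, Polynomial.coe_one, Polynomial.coe_mul, Polynomial.coe_C, Polynomial.coe_X]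
  rw [h3, Polynomial.coe_C, ← h1]
  obtain ⟨d', rfl⟩ : ∃ d', d = d' + 1 := ⟨d - 1, by omega⟩
  simp only [Nat.add_sub_cancel, nsmul_eq_mul, smul_eq_mul, pow_succ]
  ring

end P_IND

open P_IND in
open PowerSeries in
theorem t_IND : S_IND := by
  classical
  intro k c d hcinj hc0 hd F hF P₀ P hrel
  let c' : Option (Fin k) → ℚ := fun o => o.elim 0 c
  let d' : Option (Fin k) → ℕ := fun o => o.elim 1 d
  let F' : Option (Fin k) → ℚ⟦X⟧ := fun o => o.elim 1 F
  let P' : Option (Fin k) → Polynomial ℚ := fun o => o.elim P₀ P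
  have hd' : ∀ o, 1 ≤ d' o := by
    intro o; cases o with
    | none => exact le_refl 1
    | some i => exact (by norm_num : 1 ≤ 2).trans (hd i)
  have hF' : ∀ o, F' o ^ d' o = 1 + C (c' o) * X := by
    intro o; cases o with
    | none => simp [F', d', c']
    | some i => exact hF i
  have hcinj' : Function.Injective c' := by
    intro a b hab
    cases a with
    | none => cases b with
      | none => rfl
      | some j => exact absurd (hab : (0 : ℚ) = c j).symm (hc0 j)
    | some i => cases b with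
      | none => exact absurd (hab : c i = 0) (hc0 i)
      | some j => exact congrArg some (hcinj hab)
  have hd2 : ∀ o, c' o ≠ 0 → 2 ≤ d' o := by
    intro o ho; cases o with
    | none => exact absurd rfl ho
    | some i => exact hd i
  have h1X : ∀ a : ℚ, (1 + Polynomial.C a * Polynomial.X : Polynomial ℚ) ≠ 0 := by
    intro a h0
    have := congrArg (Polynomial.eval 0) h0
    simp at this
  have hFne : ∀ o, F' o ≠ 0 := by
    intro o h0
    have h1 := hF' o
    rw [h0, zero_pow (by have := hd' o; omega)] at h1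
    have h2 := congrArg PowerSeries.constantCoeff h1
    simp at h2
  have hmain := indep F' (fun o => Polynomial.C (d' o : ℚ) * (1 + Polynomial.C (c' o) * Polynomial.X))
    (fun o => Polynomial.C (c' o)) hFne ?_ (fun o => der (c' o) (d' o) (hd' o) (F' o) (hF' o)) ?_
    Finset.univ P' ?_
  · funext i
    exact hmain (some i) (Finset.mem_univ _)
  · intro o
    refine mul_ne_zero ?_ (h1X _)
    rw [Ne, Polynomial.C_eq_zero]
    have := hd' o
    positivity
  · intro i j hij A B hA hB h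
    have hcij : c' i ≠ c' j := fun h => hij (hcinj' h)
    by_cases hci : c' i = 0
    · have hcj : c' j ≠ 0 := fun h => hcij (hci.trans h.symm)
      refine L (c' j) (c' i) (d' j) (d' i) hcj (hd2 j hcj) hcij.symm (hd' i) B A hB hA ?_
      linear_combination -h
    · exact L (c' i) (c' j) (d' i) (d' j) hci (hd2 i hci) hcij (hd' j) A B hA hB h
  · rw [Fintype.sum_option]
    simpa [P', F'] using hrel

end Pool.Agent.H609.ET
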