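import Pool.Agent.H609.ET.Stm

/-!
# Project ET: the difference of two products (by helper806)
-/

set_option autoImplicit false

namespace Pool.Agent.H609.ET

theorem t_PRO : S_PRO := by
  intro k
  induction k with
  | zero =>
    intro x y P e _ _ _ _ _ _ _
    simp
  | succ k ih =>
    intro x y P e he hP hx hxP hy hyP hxy
    have h1 := ih (fun i => x i.succ) (fun i => y i.succ) (fun i => P i.succ) e he
      (fun i => hP _) (fun i => hx _) (fun i => hxP _) (fun i => hy _) (fun i => hyP _)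
      (fun i => hxy _)
    rw [Fin.prod_univ_succ, Fin.prod_univ_succ, Fin.prod_univ_succ, Fin.sum_univ_succ]
    obtain ⟨X, hX⟩ : ∃ X, X = ∏ i : Fin k, x i.succ := ⟨_, rfl⟩
    obtain ⟨Y, hY⟩ : ∃ Y, Y = ∏ i : Fin k, y i.succ := ⟨_, rfl⟩
    obtain ⟨Q, hQ⟩ : ∃ Q, Q = ∏ i : Fin k, P i.succ := ⟨_, rfl⟩
    obtain ⟨S, hS⟩ : ∃ S, S = ∑ i : Fin k, 1 / P i.succ := ⟨_, rfl⟩
    rw [← hX, ← hY, ← hQ, ← hS] at h1 ⊢
    have hX0 : 0 ≤ X := by
      rw [hX]
      exact Finset.prod_nonneg fun i _ => hx _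
    have hXQ : X ≤ Q := by
      rw [hX, hQ]
      exact Finset.prod_le_prod (fun i _ => hx _) fun i _ => hxP _
    have h0 := hP 0
    calc |x 0 * X - y 0 * Y| = |(x 0 - y 0) * X + y 0 * (X - Y)| := by ring_nf
      _ ≤ |(x 0 - y 0) * X| + |y 0 * (X - Y)| := abs_add_le _ _
      _ = |x 0 - y 0| * X + y 0 * |X - Y| := by
        rw [abs_mul, abs_mul, abs_of_nonneg hX0, abs_of_nonneg (hy 0)]
      _ ≤ e * Q + P 0 * (e * Q * S) := by
        refine add_le_add (mul_le_mul (hxy 0) hXQ hX0 he) ?_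
        exact mul_le_mul (hyP 0) h1 (abs_nonneg _) h0.le
      _ = e * (P 0 * Q) * (1 / P 0 + S) := by
        field_simp

end Pool.Agent.H609.ET
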