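import Pool.Agent.H609.ET.Stm

/-!
# Project ET, task RUN (helper213): joint equidistribution over a full period
-/

set_option autoImplicit false

namespace Pool.Agent.H609.ET

open Finset

namespace P_RUN

/-- the fractional part after a small perturbation -/
lemma frac_close {p : ℕ} (hp0 : 0 < p) {r : ℕ} (X : ℤ) (c : ℝ)
    (hc : |c - (X : ℝ) / (p : ℝ) ^ r| ≤ 1 / (2 * (p : ℝ) ^ r))
    (hρ1 : 1 ≤ X % (p : ℤ) ^ r) (hρQ : X % (p : ℤ) ^ r < (p : ℤ) ^ r) :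
    |Int.fract c - ((X % (p : ℤ) ^ r : ℤ) : ℝ) / (p : ℝ) ^ r| ≤ 1 / (2 * (p : ℝ) ^ r) := by
  have hpR : (0 : ℝ) < p := by exact_mod_cast hp0
  have hpr : (0 : ℝ) < (p : ℝ) ^ r := by positivity
  obtain ⟨Q, hQ⟩ : ∃ Q : ℤ, Q = (p : ℤ) ^ r := ⟨_, rfl⟩
  have hQR : ((Q : ℤ) : ℝ) = (p : ℝ) ^ r := by rw [hQ]; push_cast; rfl
  rw [← hQ] at hρ1 hρQ ⊢
  obtain ⟨ρ, hρ⟩ : ∃ ρ : ℤ, ρ = X % Q := ⟨_, rfl⟩
  obtain ⟨k, hk⟩ : ∃ k : ℤ, k = X / Q := ⟨_, rfl⟩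
  have h2 : X = Q * k + ρ := by
    rw [hk, hρ]
    exact (Int.mul_ediv_add_emod _ _).symm
  rw [← hρ] at hρ1 hρQ ⊢
  have h3 : (X : ℝ) / (p : ℝ) ^ r = (k : ℝ) + (ρ : ℝ) / (p : ℝ) ^ r := by
    have h4 : (X : ℝ) = (p : ℝ) ^ r * (k : ℝ) + ρ := by
      rw [← hQR]
      exact_mod_cast h2
    rw [h4]
    field_simp
  rw [h3] at hc
  have h5 : (1 : ℝ) ≤ ρ := by exact_mod_cast hρ1
  have h6 : (ρ : ℝ) ≤ (p : ℝ) ^ r - 1 := by
    have h7 : ((ρ : ℤ) : ℝ) ≤ ((Q - 1 : ℤ) : ℝ) := by exact_mod_cast (by omega : ρ ≤ Q - 1)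
    push_cast at h7
    rw [hQR] at h7
    exact h7
  have h8 : 1 / (2 * (p : ℝ) ^ r) = (1 / 2) / (p : ℝ) ^ r := by field_simp
  have h9 : (1 : ℝ) / (p : ℝ) ^ r ≤ (ρ : ℝ) / (p : ℝ) ^ r :=
    div_le_div_of_nonneg_right h5 hpr.le
  have h10 : (ρ : ℝ) / (p : ℝ) ^ r ≤ 1 - 1 / (p : ℝ) ^ r := by
    have h10' : (1 : ℝ) - 1 / (p : ℝ) ^ r = ((p : ℝ) ^ r - 1) / (p : ℝ) ^ r := by
      rw [sub_div, div_self hpr.ne']
    rw [h10']
    exact div_le_div_of_nonneg_right h6 hpr.le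
  have h11 : (1 / 2) / (p : ℝ) ^ r < 1 / (p : ℝ) ^ r :=
    div_lt_div_of_pos_right (by norm_num) hpr
  rw [h8] at hc ⊢
  rw [abs_le] at hc
  have hfloor : ⌊c⌋ = k := by
    rw [Int.floor_eq_iff]
    constructor <;> linarith [hc.1, hc.2]
  have h12 : Int.fract c = c - k := by rw [← hfloor]; rfl
  rw [h12, abs_le]
  constructor <;> linarith [hc.1, hc.2]

/-- from fractional parts to residues -/
lemma close_iff {q f ρ : ℝ} (hq : 0 < q) (h : |f - ρ / q| ≤ 1 / (2 * q)) (y : ℝ) :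
    (f < y → ρ < q * y + 1 / 2) ∧ (ρ < q * y - 1 / 2 → f < y) ∧
    (y ≤ f → q * y - 1 / 2 ≤ ρ) ∧ (q * y + 1 / 2 ≤ ρ → y ≤ f) := by
  have h1 : |q * f - ρ| ≤ 1 / 2 := by
    have h2 : q * f - ρ = q * (f - ρ / q) := by field_simp
    rw [h2, abs_mul, abs_of_pos hq]
    calc q * |f - ρ / q| ≤ q * (1 / (2 * q)) := mul_le_mul_of_nonneg_left h hq.le
      _ = 1 / 2 := by field_simp
  rw [abs_le] at h1
  refine ⟨fun h2 => ?_, fun h2 => ?_, fun h2 => ?_, fun h2 => ?_⟩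
  · have := mul_lt_mul_of_pos_left h2 hq
    linarith [h1.1]
  · have h3 : q * f < q * y := by linarith [h1.2]
    exact lt_of_mul_lt_mul_left h3 hq.le
  · have := mul_le_mul_of_nonneg_left h2 hq.le
    linarith [h1.2]
  · have h3 : q * y ≤ q * f := by linarith [h1.1]
    exact le_of_mul_le_mul_left h3 hq

lemma card_inst {s : Finset ℕ} (Q : ℕ → Prop) (d1 d2 : DecidablePred Q) :
    (@filter _ Q d1 s).card = (@filter _ Q d2 s).card := by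
  rw [Subsingleton.elim d1 d2]

/-- the numbers of the residues in the two windows -/
lemma window {P : ℕ} (ρ : ℕ → ℤ) (q b lo hi : ℝ) (hb : 1 ≤ b) (hq : 0 < q) (hP : q / b = P)
    (hlow : ∀ z : ℝ, z ≤ q → z / b - 2 ≤
      ((({m ∈ range P | (ρ m : ℝ) < z} : Finset ℕ).card : ℕ) : ℝ))
    (hupp : ∀ z : ℝ, 0 ≤ z →
      ((({m ∈ range P | (ρ m : ℝ) < z} : Finset ℕ).card : ℕ) : ℝ) ≤ z / b + 2)
    (hlo : 0 ≤ lo) (hlohi : lo ≤ hi) (hhi : hi ≤ 1) :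
    ((({m ∈ range P | q * lo - 1 / 2 ≤ (ρ m : ℝ) ∧ (ρ m : ℝ) < q * hi + 1 / 2} :
      Finset ℕ).card : ℕ) : ℝ) ≤ P * (hi - lo) + 5 ∧
    P * (hi - lo) - 5 ≤ ((({m ∈ range P | q * lo + 1 / 2 ≤ (ρ m : ℝ) ∧
      (ρ m : ℝ) < q * hi - 1 / 2} : Finset ℕ).card : ℕ) : ℝ) ∧
    ((({m ∈ range P | q * lo + 1 / 2 ≤ (ρ m : ℝ) ∧ (ρ m : ℝ) < q * hi - 1 / 2} :
      Finset ℕ).card : ℕ) : ℝ) ≤
    ((({m ∈ range P | q * lo - 1 / 2 ≤ (ρ m : ℝ) ∧ (ρ m : ℝ) < q * hi + 1 / 2} :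
      Finset ℕ).card : ℕ) : ℝ) := by
  have hb0 : 0 < b := by linarith
  have hb1 : 1 / b ≤ 1 := by
    rw [div_le_one hb0]
    exact hb
  have hd : ∀ y s : ℝ, (q * y + s) / b = P * y + s * (1 / b) := by
    intro y s
    rw [← hP]
    field_simp
  have hqlo : 0 ≤ q * lo := mul_nonneg hq.le hlo
  have hqh : q * lo ≤ q * hi := mul_le_mul_of_nonneg_left hlohi hq.le
  have hq1 : q * hi ≤ q := by nlinarith
  refine ⟨?_, ?_, ?_⟩
  · have h1 : ({m ∈ range P | q * lo - 1 / 2 ≤ (ρ m : ℝ) ∧ (ρ m : ℝ) < q * hi + 1 / 2} :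
        Finset ℕ).card + ({m ∈ range P | (ρ m : ℝ) < q * lo - 1 / 2} : Finset ℕ).card ≤
        ({m ∈ range P | (ρ m : ℝ) < q * hi + 1 / 2} : Finset ℕ).card := by
      rw [← card_union_of_disjoint]
      · apply card_le_card
        intro m hm
        rw [mem_union, mem_filter, mem_filter] at hm
        rw [mem_filter]
        rcases hm with hm | hm
        · exact ⟨hm.1, hm.2.2⟩
        · exact ⟨hm.1, by linarith [hm.2]⟩
      · rw [disjoint_left]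
        intro m h1 h2
        rw [mem_filter] at h1 h2
        linarith [h1.2.1, h2.2]
    have h1' : ((({m ∈ range P | q * lo - 1 / 2 ≤ (ρ m : ℝ) ∧ (ρ m : ℝ) < q * hi + 1 / 2} :
        Finset ℕ).card : ℕ) : ℝ) +
        ((({m ∈ range P | (ρ m : ℝ) < q * lo - 1 / 2} : Finset ℕ).card : ℕ) : ℝ) ≤
        ((({m ∈ range P | (ρ m : ℝ) < q * hi + 1 / 2} : Finset ℕ).card : ℕ) : ℝ) := by
      exact_mod_cast h1
    have h2 := hupp (q * hi + 1 / 2) (by linarith)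
    have h3 := hlow (q * lo - 1 / 2) (by linarith)
    rw [hd hi (1 / 2)] at h2
    rw [sub_eq_add_neg (q * lo) (1 / 2), hd lo (-(1 / 2)), ← sub_eq_add_neg (q * lo) (1 / 2)] at h3
    linarith
  · have h1 : ({m ∈ range P | (ρ m : ℝ) < q * hi - 1 / 2} : Finset ℕ).card ≤
        ({m ∈ range P | q * lo + 1 / 2 ≤ (ρ m : ℝ) ∧ (ρ m : ℝ) < q * hi - 1 / 2} :
          Finset ℕ).card + ({m ∈ range P | (ρ m : ℝ) < q * lo + 1 / 2} : Finset ℕ).card := by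
      refine le_trans (card_le_card ?_) (card_union_le _ _)
      intro m hm
      rw [mem_filter] at hm
      rw [mem_union, mem_filter, mem_filter]
      rcases lt_or_ge (ρ m : ℝ) (q * lo + 1 / 2) with h | h
      · exact Or.inr ⟨hm.1, h⟩
      · exact Or.inl ⟨hm.1, h, hm.2⟩
    have h1' : ((({m ∈ range P | (ρ m : ℝ) < q * hi - 1 / 2} : Finset ℕ).card : ℕ) : ℝ) ≤
        ((({m ∈ range P | q * lo + 1 / 2 ≤ (ρ m : ℝ) ∧ (ρ m : ℝ) < q * hi - 1 / 2} :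
          Finset ℕ).card : ℕ) : ℝ) +
        ((({m ∈ range P | (ρ m : ℝ) < q * lo + 1 / 2} : Finset ℕ).card : ℕ) : ℝ) := by
      exact_mod_cast h1
    have h2 := hupp (q * lo + 1 / 2) (by linarith)
    have h3 := hlow (q * hi - 1 / 2) (by linarith)
    rw [hd lo (1 / 2)] at h2
    rw [sub_eq_add_neg (q * hi) (1 / 2), hd hi (-(1 / 2)), ← sub_eq_add_neg (q * hi) (1 / 2)] at h3
    linarith
  · have h1 : ({m ∈ range P | q * lo + 1 / 2 ≤ (ρ m : ℝ) ∧ (ρ m : ℝ) < q * hi - 1 / 2} :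
        Finset ℕ).card ≤
        ({m ∈ range P | q * lo - 1 / 2 ≤ (ρ m : ℝ) ∧ (ρ m : ℝ) < q * hi + 1 / 2} :
          Finset ℕ).card := by
      apply card_le_card
      intro m hm
      rw [mem_filter] at hm ⊢
      exact ⟨hm.1, by linarith [hm.2.1], by linarith [hm.2.2]⟩
    exact_mod_cast h1

open Classical in
lemma crt_le (hcrt : S_CRT) {k : ℕ} (Q : Fin k → ℕ) (hQ : ∀ i, 0 < Q i)
    (hcop : ∀ i j, i ≠ j → (Q i).Coprime (Q j)) (A : Fin k → ℕ → Prop) (S : Finset ℕ)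
    (hS : ∀ m ∈ S, m < ∏ i, Q i ∧ ∀ i, A i (m % Q i)) :
    S.card ≤ ∏ i, ({m ∈ range (Q i) | A i m} : Finset ℕ).card := by
  rw [← hcrt k Q hQ hcop A]
  apply card_le_card
  intro m hm
  rw [mem_filter, mem_range]
  exact hS m hm

open Classical in
lemma crt_ge (hcrt : S_CRT) {k : ℕ} (Q : Fin k → ℕ) (hQ : ∀ i, 0 < Q i)
    (hcop : ∀ i j, i ≠ j → (Q i).Coprime (Q j)) (A : Fin k → ℕ → Prop) (S : Finset ℕ)
    (hS : ∀ m < ∏ i, Q i, (∀ i, A i (m % Q i)) → m ∈ S) :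
    ∏ i, ({m ∈ range (Q i) | A i m} : Finset ℕ).card ≤ S.card := by
  rw [← hcrt k Q hQ hcop A]
  apply card_le_card
  intro m hm
  rw [mem_filter, mem_range] at hm
  exact hS m hm.1 hm.2

end P_RUN

open P_RUN in
theorem t_RUN (hcnt : S_CNT) (hcrt : S_CRT) (hpro : S_PRO) : S_RUN := by
  classical
  intro k p hp hodd hinj a u w ha hu hw r hr V hV c hc lo hi hlo hlohi hhi
  have hp0 : ∀ i, 0 < p i := fun i => (hp i).pos
  have hpR : ∀ i, (0 : ℝ) < p i := fun i => by exact_mod_cast hp0 i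
  have hcn := fun i => hcnt (p i) (hp i) (hodd i) (a i) u (w i) (ha i) (hu i) (hw i) (r i) (hr i)
    (V i) (hV i)
  have hq : ∀ i, (0 : ℝ) < (p i : ℝ) ^ r i := fun i => pow_pos (hpR i) _
  have hwin := fun i => window (P := p i ^ (r i - a i))
    (fun m => (V i * u ^ m) % (p i : ℤ) ^ r i) ((p i : ℝ) ^ r i) ((p i : ℝ) ^ a i) (lo i) (hi i)
    (one_le_pow₀ (by exact_mod_cast hp0 i)) (hq i)
    (by
      rw [div_eq_iff (pow_pos (hpR i) _).ne']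
      push_cast
      rw [← pow_add]
      congr 1
      have := hr i
      omega)
    (hcn i).1 (hcn i).2.1 (hlo i) (hlohi i) (hhi i)
  have hP0 : ∀ i, 0 < p i ^ (r i - a i) := fun i => pow_pos (hp0 i) _
  have hcop : ∀ i j, i ≠ j → (p i ^ (r i - a i)).Coprime (p j ^ (r j - a j)) := fun i j hij =>
    Nat.Coprime.pow _ _ ((Nat.coprime_primes (hp i) (hp j)).2 fun h => hij (hinj h))
  have hclose : ∀ m < ∏ i, p i ^ (r i - a i), ∀ i,
      |Int.fract (c m i) - (((V i * u ^ (m % p i ^ (r i - a i))) % (p i : ℤ) ^ r i : ℤ) : ℝ) /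
        (p i : ℝ) ^ r i| ≤ 1 / (2 * (p i : ℝ) ^ r i) := by
    intro m hm i
    rw [← (hcn i).2.2.1 m]
    exact frac_close (hp0 i) _ _ (hc m hm i) ((hcn i).2.2.2 m).1 ((hcn i).2.2.2 m).2
  -- the two inclusions
  have s1 : ({m ∈ range (∏ i, p i ^ (r i - a i)) | ∀ i, lo i ≤ Int.fract (c m i) ∧
      Int.fract (c m i) < hi i} : Finset ℕ).card ≤
      ∏ i, ({m ∈ range (p i ^ (r i - a i)) |
        (p i : ℝ) ^ r i * lo i - 1 / 2 ≤ (((V i * u ^ m) % (p i : ℤ) ^ r i : ℤ) : ℝ) ∧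
        (((V i * u ^ m) % (p i : ℤ) ^ r i : ℤ) : ℝ) < (p i : ℝ) ^ r i * hi i + 1 / 2} :
          Finset ℕ).card := by
    refine (crt_le hcrt (fun i => p i ^ (r i - a i)) hP0 hcop (fun i m =>
      (p i : ℝ) ^ r i * lo i - 1 / 2 ≤ (((V i * u ^ m) % (p i : ℤ) ^ r i : ℤ) : ℝ) ∧
      (((V i * u ^ m) % (p i : ℤ) ^ r i : ℤ) : ℝ) < (p i : ℝ) ^ r i * hi i + 1 / 2) _ ?_).trans_eq
      (prod_congr rfl fun i _ => card_inst _ _ _)
    intro m hm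
    rw [mem_filter, mem_range] at hm
    refine ⟨hm.1, fun i => ?_⟩
    have h1 := hclose m hm.1 i
    exact ⟨(close_iff (hq i) h1 (lo i)).2.2.1 (hm.2 i).1,
      (close_iff (hq i) h1 (hi i)).1 (hm.2 i).2⟩
  have s2 : ∏ i, ({m ∈ range (p i ^ (r i - a i)) |
        (p i : ℝ) ^ r i * lo i + 1 / 2 ≤ (((V i * u ^ m) % (p i : ℤ) ^ r i : ℤ) : ℝ) ∧
        (((V i * u ^ m) % (p i : ℤ) ^ r i : ℤ) : ℝ) < (p i : ℝ) ^ r i * hi i - 1 / 2} :
          Finset ℕ).card ≤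
      ({m ∈ range (∏ i, p i ^ (r i - a i)) | ∀ i, lo i ≤ Int.fract (c m i) ∧
        Int.fract (c m i) < hi i} : Finset ℕ).card := by
    refine (prod_congr rfl fun i _ => card_inst _ _ _).trans_le
      (crt_ge hcrt (fun i => p i ^ (r i - a i)) hP0 hcop (fun i m =>
      (p i : ℝ) ^ r i * lo i + 1 / 2 ≤ (((V i * u ^ m) % (p i : ℤ) ^ r i : ℤ) : ℝ) ∧
      (((V i * u ^ m) % (p i : ℤ) ^ r i : ℤ) : ℝ) < (p i : ℝ) ^ r i * hi i - 1 / 2) _ ?_)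
    intro m hm hm2
    rw [mem_filter, mem_range]
    refine ⟨hm, fun i => ?_⟩
    have h1 := hclose m hm i
    exact ⟨(close_iff (hq i) h1 (lo i)).2.2.2 (hm2 i).1,
      (close_iff (hq i) h1 (hi i)).2.1 (hm2 i).2⟩
  -- the products
  have hPR : ∀ i, (0 : ℝ) < ((p i ^ (r i - a i) : ℕ) : ℝ) := fun i => by exact_mod_cast hP0 i
  have hy0 : ∀ i, 0 ≤ ((p i ^ (r i - a i) : ℕ) : ℝ) * (hi i - lo i) := fun i =>
    mul_nonneg (hPR i).le (by linarith [hlohi i])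
  have hy1 : ∀ i, ((p i ^ (r i - a i) : ℕ) : ℝ) * (hi i - lo i) ≤
      ((p i ^ (r i - a i) : ℕ) : ℝ) := fun i => by
    have := mul_le_mul_of_nonneg_left (by linarith [hlo i, hhi i] : hi i - lo i ≤ 1) (hPR i).le
    rwa [mul_one] at this
  have hNle : ∀ (i : Fin k) (Q : ℕ → Prop) [DecidablePred Q],
      ((({m ∈ range (p i ^ (r i - a i)) | Q m} : Finset ℕ).card : ℕ) : ℝ) ≤
        ((p i ^ (r i - a i) : ℕ) : ℝ) := by
    intro i Q _
    have h1 := card_filter_le (range (p i ^ (r i - a i))) Q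
    rw [card_range] at h1
    exact_mod_cast h1
  have q1 := hpro k (fun i => ((({m ∈ range (p i ^ (r i - a i)) |
        (p i : ℝ) ^ r i * lo i - 1 / 2 ≤ (((V i * u ^ m) % (p i : ℤ) ^ r i : ℤ) : ℝ) ∧
        (((V i * u ^ m) % (p i : ℤ) ^ r i : ℤ) : ℝ) < (p i : ℝ) ^ r i * hi i + 1 / 2} :
          Finset ℕ).card : ℕ) : ℝ))
    (fun i => ((p i ^ (r i - a i) : ℕ) : ℝ) * (hi i - lo i))
    (fun i => ((p i ^ (r i - a i) : ℕ) : ℝ)) 6 (by norm_num) hPR (fun i => Nat.cast_nonneg _)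
    (fun i => hNle i _) hy0 hy1 (fun i => by
      rw [abs_le]
      have h1 := hwin i
      constructor <;> linarith [h1.1, h1.2.1, h1.2.2])
  have q2 := hpro k (fun i => ((({m ∈ range (p i ^ (r i - a i)) |
        (p i : ℝ) ^ r i * lo i + 1 / 2 ≤ (((V i * u ^ m) % (p i : ℤ) ^ r i : ℤ) : ℝ) ∧
        (((V i * u ^ m) % (p i : ℤ) ^ r i : ℤ) : ℝ) < (p i : ℝ) ^ r i * hi i - 1 / 2} :
          Finset ℕ).card : ℕ) : ℝ))
    (fun i => ((p i ^ (r i - a i) : ℕ) : ℝ) * (hi i - lo i))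
    (fun i => ((p i ^ (r i - a i) : ℕ) : ℝ)) 6 (by norm_num) hPR (fun i => Nat.cast_nonneg _)
    (fun i => hNle i _) hy0 hy1 (fun i => by
      rw [abs_le]
      have h1 := hwin i
      constructor <;> linarith [h1.1, h1.2.1, h1.2.2])
  have s1' := (Nat.cast_le (α := ℝ)).2 s1
  have s2' := (Nat.cast_le (α := ℝ)).2 s2
  rw [Nat.cast_prod] at s1' s2'
  rw [prod_mul_distrib] at q1 q2
  have e2 : ((∏ i, p i ^ (r i - a i) : ℕ) : ℝ) = ∏ i, ((p i ^ (r i - a i) : ℕ) : ℝ) :=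
    Nat.cast_prod _ _
  have e3 : ∑ i, 1 / ((p i ^ (r i - a i) : ℕ) : ℝ) = ∑ i, 1 / (p i : ℝ) ^ (r i - a i) :=
    sum_congr rfl fun i _ => by rw [Nat.cast_pow]
  rw [e3] at q1 q2
  rw [e2]
  rw [abs_le] at q1 q2 ⊢
  constructor
  · linarith [q2.1]
  · linarith [q1.2]

end Pool.Agent.H609.ET
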