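import Pool.Agent.H609.ET.Digits
import Pool.Agent.H609.ET.P_BLK
import Pool.Agent.H609.ET.P_CNT
import Pool.Agent.H609.ET.P_CRT
import Pool.Agent.H609.ET.P_PRO
import Pool.Agent.H609.ET.P_RUN
import Pool.Agent.H609.ET.P_IND
import Pool.Agent.H609.XP.Roots
import Pool.Agent.H609.JT.Ind

/-!
# Explicit tuples: the main theorems
-/

set_option autoImplicit false

namespace Pool.Agent.H609.ET

open Finset PowerSeries
open Pool.Agent.H609.GF (Sm ev evA rel SG_of_alg irr int_rel ev_poly)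
open Pool.Agent.H609.XP (growth sm tail two_mul_le_pow coeff_map' exists_root)

/-- linear independence of the values of `1, F 1, ..., F k` -/
theorem lin_values {k : ℕ} (F : Fin k → ℚ⟦X⟧) (hF : ∀ i, IsAlgebraic (Polynomial ℚ) (F i))
    (hind : ∀ (P₀ : Polynomial ℚ) (P : Fin k → Polynomial ℚ),
      (P₀ : ℚ⟦X⟧) + ∑ j, (P j : ℚ⟦X⟧) * F j = 0 → P = 0) {b : ℕ} (hb : 2 ≤ b) :
    ∃ n₀ : ℕ, ∀ n : ℕ, n₀ ≤ n → (∀ i, Sm (((b : ℝ) ^ n)⁻¹) (F i)) → ∀ q : Fin k → ℚ,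
      (∀ i, q i ≠ 0) →
      LinearIndependent ℚ
        (Fin.cons 1 (fun i => ev (((b : ℝ) ^ n)⁻¹) (F i) / (q i : ℝ)) : Fin (k + 1) → ℝ) := by
  let f' : Fin (k + 1) → ℚ⟦X⟧ := Fin.cons 1 F
  have hf' : ∀ j, IsAlgebraic (Polynomial ℚ) (f' j) := by
    intro j
    refine Fin.cases ?_ (fun i => ?_) j
    · exact isAlgebraic_one
    · exact hF i
  obtain ⟨n3, hn3⟩ := Pool.Agent.H609.JT.indep f' hf' (by
    intro P hP
    rw [Fin.sum_univ_succ] at hP
    simp only [f', Fin.cons_zero, Fin.cons_succ, mul_one] at hP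
    have h1 := hind (P 0) (fun j => P j.succ) hP
    have h2 : ∀ j : Fin k, P j.succ = 0 := fun j => congrFun h1 j
    have h3 : P 0 = 0 := by
      simp only [h2, Polynomial.coe_zero, zero_mul, sum_const_zero, add_zero] at hP
      exact Polynomial.coe_injective ℚ (by rw [hP, Polynomial.coe_zero])
    funext j
    refine Fin.cases ?_ (fun i => ?_) j
    · exact h3
    · exact h2 i) b hb
  refine ⟨n3, fun n hn hsm q hq => ?_⟩
  have h1 : ∀ j, Sm (((b : ℝ) ^ n)⁻¹) (f' j) := by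
    intro j
    refine Fin.cases ?_ (fun i => ?_) j
    · have := Sm.const (((b : ℝ) ^ n)⁻¹) 1
      rwa [map_one] at this
    · exact hsm i
  have h2 := hn3 n hn h1
  let w : Fin (k + 1) → ℚˣ := Fin.cons 1 fun i => (Units.mk0 (q i) (hq i))⁻¹
  have h3 := h2.units_smul w
  have h4 : (w • fun j => ev (((b : ℝ) ^ n)⁻¹) (f' j)) =
      (Fin.cons 1 (fun i => ev (((b : ℝ) ^ n)⁻¹) (F i) / (q i : ℝ)) : Fin (k + 1) → ℝ) := by
    funext j
    refine Fin.cases ?_ (fun i => ?_) j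
    · have := Pool.Agent.H609.GF.ev_const (((b : ℝ) ^ n)⁻¹) 1
      rw [map_one, Rat.cast_one] at this
      simp only [Pi.smul_apply', w, f', Fin.cons_zero, one_smul]
      exact this
    · simp only [Pi.smul_apply', w, f', Fin.cons_succ]
      rw [Units.smul_def, Rat.smul_def]
      simp only [Units.val_inv_eq_inv_val, Units.val_mk0, Rat.cast_inv]
      rw [div_eq_inv_mul]
  rw [h4] at h3
  exact h3

open Classical in
/-- the joint discrepancy in all windows -/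
def Controlled {k : ℕ} (b n : ℕ) (q : Fin k → ℝ) (C : ℝ) (α : Fin k → ℝ) : Prop :=
  ∀ (s L : ℕ) (u v : Fin k → ℝ), (∀ i, 0 ≤ u i) → (∀ i, u i ≤ v i) → (∀ i, v i ≤ 1) →
    |((({j ∈ range L | ∀ i, u i ≤ Int.fract ((b : ℝ) ^ (s + j) * α i) ∧
      Int.fract ((b : ℝ) ^ (s + j) * α i) < v i} : Finset ℕ).card : ℕ) : ℝ) -
      (∏ i, (v i - u i)) * L| ≤
      C * (L * ∑ i, 1 / q i + (∏ i, q i + (s + L) / n) * (L / n + 1))

theorem digits_all {b : ℕ} (hb : 2 ≤ b) {k : ℕ} (p : Fin k → ℕ)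
    (hp : ∀ i, (p i).Prime) (hodd : ∀ i, Odd (p i)) (hinj : Function.Injective p)
    (hpb : ∀ i, ¬ p i ∣ b) (F : Fin k → ℤ⟦X⟧)
    (hF : ∀ i, IsAlgebraic (Polynomial ℚ) ((F i).map (Int.castRingHom ℚ)))
    (h0 : ∀ i, ¬ (p i : ℤ) ∣ coeff 0 (F i)) (hk : ∀ i l, 1 ≤ l → (p i : ℤ) ∣ coeff l (F i)) :
    ∃ C : ℝ, 0 < C ∧ ∃ n₀ : ℕ, ∀ n : ℕ, n₀ ≤ n →
      (∀ i, Sm (((b : ℝ) ^ n)⁻¹) ((F i).map (Int.castRingHom ℚ))) ∧
      ∀ r : Fin k → ℕ, Controlled b n (fun i => (p i : ℝ) ^ r i) C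
        (fun i => ev (((b : ℝ) ^ n)⁻¹) ((F i).map (Int.castRingHom ℚ)) / (p i : ℝ) ^ r i) := by
  choose K0 hK01 hK0 using fun i => growth (hF i)
  set K : ℕ := ∑ i, K0 i + 1 with hK
  have hKi : ∀ i, K0 i ≤ K := fun i => by
    have : K0 i ≤ ∑ i, K0 i := single_le_sum (fun _ _ => Nat.zero_le _) (mem_univ i)
    omega
  have hKb : ∀ i l, |((coeff l (F i) : ℤ) : ℝ)| ≤ (K : ℝ) ^ (l + 1) := fun i l =>
    (hK0 i l).trans (pow_le_pow_left₀ (Nat.cast_nonneg _) (by exact_mod_cast hKi i) _)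
  obtain ⟨C, hC, hdig⟩ := digits t_BLK (t_RUN t_CNT t_CRT t_PRO) hb p hp hodd hinj hpb
    (fun i l => coeff l (F i)) (by omega : 1 ≤ K) hKb h0 hk
  refine ⟨C, hC, K + 1, fun n hn => ⟨fun i => sm (hKb i) hb hn, fun r s L u v hu huv hv => ?_⟩⟩
  have hev : ∀ i, ev (((b : ℝ) ^ n)⁻¹) ((F i).map (Int.castRingHom ℚ)) =
      ∑' l, ((coeff l (F i) : ℤ) : ℝ) * (((b : ℝ) ^ n)⁻¹) ^ l := by
    intro i
    unfold ev
    simp only [coeff_map']
  have h1 := hdig n hn r u v hu huv hv s L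
  unfold EG at h1
  refine le_trans (le_of_eq ?_) h1
  refine congrArg abs (congrArg₂ (fun x z : ℝ => x - z) (congrArg Nat.cast
    (congrArg Finset.card ?_)) rfl)
  ext j
  simp only [mem_filter, hev]

/-- **The general theorem.** -/
theorem general {b : ℕ} (hb : 2 ≤ b) {k : ℕ} (p : Fin k → ℕ)
    (hp : ∀ i, (p i).Prime) (hodd : ∀ i, Odd (p i)) (hinj : Function.Injective p)
    (hpb : ∀ i, ¬ p i ∣ b) (F : Fin k → ℤ⟦X⟧)
    (hF : ∀ i, IsAlgebraic (Polynomial ℚ) ((F i).map (Int.castRingHom ℚ)))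
    (hind : ∀ (P₀ : Polynomial ℚ) (P : Fin k → Polynomial ℚ),
      (P₀ : ℚ⟦X⟧) + ∑ j, (P j : ℚ⟦X⟧) * (F j).map (Int.castRingHom ℚ) = 0 → P = 0)
    (h0 : ∀ i, ¬ (p i : ℤ) ∣ coeff 0 (F i)) (hk : ∀ i l, 1 ≤ l → (p i : ℤ) ∣ coeff l (F i)) :
    ∃ A : ℕ, ∃ C : ℝ, 0 < C ∧ ∃ n₀ : ℕ, ∀ n : ℕ, n₀ ≤ n → ∃ S : Fin k → ℝ,
      (∀ i, HasSum (fun l : ℕ => ((coeff l (F i) : ℤ) : ℝ) * (((b : ℝ) ^ n)⁻¹) ^ l) (S i)) ∧
      (∀ i, ∃ R : Polynomial ℤ, R ≠ 0 ∧ R.natDegree ≤ A ∧ (∀ l, |R.coeff l| ≤ (b : ℤ) ^ (A * n)) ∧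
        Polynomial.aeval (S i) R = 0) ∧
      ∀ r : Fin k → ℕ,
        LinearIndependent ℚ (Fin.cons 1 (fun i => S i / (p i : ℝ) ^ r i) : Fin (k + 1) → ℝ) ∧
        Controlled b n (fun i => (p i : ℝ) ^ r i) C (fun i => S i / (p i : ℝ) ^ r i) := by
  obtain ⟨C, hC, n1, hn1⟩ := digits_all hb p hp hodd hinj hpb F hF h0 hk
  obtain ⟨n2, hn2⟩ := lin_values (fun i => (F i).map (Int.castRingHom ℚ)) hF hind hb
  choose A0 hA0 using fun i => int_rel (hF i)
  choose n3 hn3 using fun i => hA0 i b hb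
  set A : ℕ := ∑ i, A0 i with hA
  have hAi : ∀ i, A0 i ≤ A := fun i => single_le_sum (fun _ _ => Nat.zero_le _) (mem_univ i)
  refine ⟨A, C, hC, max (max n1 n2) (∑ i, n3 i), fun n hn => ?_⟩
  have hnn1 : n1 ≤ n := le_trans (le_trans (le_max_left _ _) (le_max_left _ _)) hn
  have hnn2 : n2 ≤ n := le_trans (le_trans (le_max_right _ _) (le_max_left _ _)) hn
  have hnn3 : ∀ i, n3 i ≤ n := fun i =>
    (single_le_sum (f := n3) (fun _ _ => Nat.zero_le _) (mem_univ i)).trans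
      ((le_max_right _ _).trans hn)
  obtain ⟨hsm, hctl⟩ := hn1 n hnn1
  refine ⟨fun i => ev (((b : ℝ) ^ n)⁻¹) ((F i).map (Int.castRingHom ℚ)), fun i => ?_, fun i => ?_,
    fun r => ⟨?_, hctl r⟩⟩
  · have hev : ev (((b : ℝ) ^ n)⁻¹) ((F i).map (Int.castRingHom ℚ)) =
        ∑' l, ((coeff l (F i) : ℤ) : ℝ) * (((b : ℝ) ^ n)⁻¹) ^ l := by
      unfold ev
      simp only [coeff_map']
    have h1 : Summable fun l : ℕ => ((coeff l (F i) : ℤ) : ℝ) * (((b : ℝ) ^ n)⁻¹) ^ l := by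
      have h2 := (hsm i).of_norm
      refine h2.congr fun l => ?_
      rw [coeff_map']
    have h3 := h1.hasSum
    rw [← hev] at h3
    exact h3
  · obtain ⟨R, hR0, hRd, hRc, hRe⟩ := hn3 i n (hnn3 i) (hsm i)
    refine ⟨R, hR0, hRd.trans (hAi i), fun l => (hRc l).trans ?_, hRe⟩
    have h1 : (1 : ℤ) ≤ b := by exact_mod_cast (by omega : 1 ≤ b)
    exact pow_le_pow_right₀ h1 (Nat.mul_le_mul_right _ (hAi i))
  · have h1 := hn2 n hnn2 hsm (fun i => (p i : ℚ) ^ r i)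
      (fun i => pow_ne_zero _ (by exact_mod_cast (hp i).ne_zero))
    push_cast at h1
    exact h1

/-- the value of `(1 + d ^ 2 p x) ^ (1 / d)` -/
lemma root_value {b : ℕ} (hb : 2 ≤ b) {d : ℕ} (hd : 1 ≤ d) {p : ℕ} {F : ℤ⟦X⟧}
    (hF1 : F ^ d = 1 + C ((d : ℤ) ^ 2 * p) * X) (hF2 : constantCoeff F = 1)
    (hFalg : IsAlgebraic (Polynomial ℚ) (F.map (Int.castRingHom ℚ))) :
    ∃ n₀ : ℕ, ∀ n : ℕ, n₀ ≤ n → ev (((b : ℝ) ^ n)⁻¹) (F.map (Int.castRingHom ℚ)) =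
      (1 + (d : ℝ) ^ 2 * p / (b : ℝ) ^ n) ^ (1 / (d : ℝ)) := by
  have hb0 : (0 : ℝ) < b := by exact_mod_cast (by omega : 0 < b)
  have hb1 : (1 : ℝ) ≤ b := by exact_mod_cast (by omega : 1 ≤ b)
  have hbR : (1 : ℝ) < b := by exact_mod_cast (by omega : 1 < b)
  have hdR : (0 : ℝ) < d := by exact_mod_cast (by omega : 0 < d)
  set c : ℚ := (d : ℚ) ^ 2 * p with hc
  set θ : ℚ⟦X⟧ := F.map (Int.castRingHom ℚ) with hθ
  have hθd : θ ^ d = 1 + C c * X := by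
    rw [hθ, ← map_pow, hF1, map_add, map_one, map_mul, PowerSeries.map_C, PowerSeries.map_X]
    congr 3
    rw [hc]
    simp
  obtain ⟨K, hK1, hK⟩ := growth hFalg
  obtain ⟨n2, hn2⟩ := pow_unbounded_of_one_lt (4 * (K : ℝ) ^ 2) hbR
  refine ⟨max n2 (K + 1), fun n hn => ?_⟩
  have hnn2 : n2 ≤ n := le_trans (le_max_left _ _) hn
  have hnK : K + 1 ≤ n := le_trans (le_max_right _ _) hn
  have hsm := sm hK hb hnK
  have hB : (0 : ℝ) < (b : ℝ) ^ n := by positivity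
  set x : ℝ := ((b : ℝ) ^ n)⁻¹ with hx
  have hx0 : 0 < x := by positivity
  have hev : ev x (F.map (Int.castRingHom ℚ)) = ∑' k, ((coeff k F : ℤ) : ℝ) * x ^ k := by
    unfold ev
    simp only [coeff_map']
  set S : ℝ := ev x θ with hS
  have hSd : S ^ d = 1 + (d : ℝ) ^ 2 * p / (b : ℝ) ^ n := by
    have h1 : ev x (θ ^ d) = ev x θ ^ d := by
      have := map_pow (evA x) ⟨θ, hsm⟩ d
      exact this
    rw [hS, ← h1, hθd]
    have h2 := ev_poly x (1 + Polynomial.C c * Polynomial.X)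
    have h3 : ((1 + Polynomial.C c * Polynomial.X : Polynomial ℚ) : ℚ⟦X⟧) =
        1 + PowerSeries.C c * PowerSeries.X := by simp
    rw [h3] at h2
    rw [h2]
    simp only [map_add, map_one, map_mul, Polynomial.aeval_C, Polynomial.aeval_X, eq_ratCast, hc,
      Rat.cast_pow, Rat.cast_natCast]
    rw [hx]
    ring
  have hSpos : 0 < S := by
    have hKx : (K : ℝ) * x ≤ 1 / 2 := by
      rw [hx, ← div_eq_mul_inv, div_le_iff₀ hB]
      have := two_mul_le_pow hb hnK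
      linarith
    obtain ⟨-, h1⟩ := tail (fun k => ((coeff k F : ℤ) : ℝ)) (by positivity : (0 : ℝ) ≤ K) hx0.le hKx
      hK 1
    rw [← hev, sum_range_one, pow_zero, mul_one, coeff_zero_eq_constantCoeff_apply, hF2,
      Int.cast_one, pow_one] at h1
    have h2 : 2 * (K : ℝ) ^ (1 + 1) * x ≤ 1 / 2 := by
      rw [hx, ← div_eq_mul_inv, div_le_iff₀ hB]
      have h3 : (b : ℝ) ^ n2 ≤ (b : ℝ) ^ n := pow_le_pow_right₀ hb1 hnn2
      norm_num
      linarith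
    have h3 := (abs_le.1 (h1.trans h2)).1
    linarith
  rw [← hSd, ← Real.rpow_natCast, ← Real.rpow_mul hSpos.le, mul_one_div, div_self hdR.ne',
    Real.rpow_one]

/-- `d ^ 2 p` determines the prime `p` -/
lemma sq_mul_inj {d e p q : ℕ} (hd : d ≠ 0) (he : e ≠ 0) (hp : p.Prime) (hq : q.Prime)
    (h : d ^ 2 * p = e ^ 2 * q) : p = q := by
  by_contra hpq
  have h1 : (d ^ 2 * p).factorization p = (e ^ 2 * q).factorization p := by rw [h]
  rw [Nat.factorization_mul (pow_ne_zero _ hd) hp.ne_zero,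
    Nat.factorization_mul (pow_ne_zero _ he) hq.ne_zero, Nat.factorization_pow,
    Nat.factorization_pow] at h1
  have h2 : q.factorization p = 0 := by
    rw [hq.factorization]
    simp only [Finsupp.single_apply]
    rw [if_neg (fun h3 => hpq h3.symm)]
  have h3 : p.factorization p = 1 := hp.factorization_self
  simp only [Finsupp.add_apply, Finsupp.smul_apply, smul_eq_mul, h2, h3] at h1
  omega

/-- **Tuples of roots.** -/
theorem roots {b : ℕ} (hb : 2 ≤ b) {k : ℕ} (p : Fin k → ℕ)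
    (hp : ∀ i, (p i).Prime) (hodd : ∀ i, Odd (p i)) (hinj : Function.Injective p)
    (hpb : ∀ i, ¬ p i ∣ b) (d : Fin k → ℕ) (hd : ∀ i, 2 ≤ d i) :
    ∃ C : ℝ, 0 < C ∧ ∃ n₀ : ℕ, ∀ n : ℕ, n₀ ≤ n → ∀ r : Fin k → ℕ,
      (∀ i, (minpoly ℚ ((1 + (d i : ℝ) ^ 2 * p i / (b : ℝ) ^ n) ^ (1 / (d i : ℝ)) /
        (p i : ℝ) ^ r i)).natDegree = d i) ∧
      LinearIndependent ℚ (Fin.cons 1 (fun i => (1 + (d i : ℝ) ^ 2 * p i / (b : ℝ) ^ n) ^
        (1 / (d i : ℝ)) / (p i : ℝ) ^ r i) : Fin (k + 1) → ℝ) ∧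
      Controlled b n (fun i => (p i : ℝ) ^ r i) C (fun i => (1 + (d i : ℝ) ^ 2 * p i / (b : ℝ) ^ n) ^
        (1 / (d i : ℝ)) / (p i : ℝ) ^ r i) := by
  choose F hF1 hF2 hF3 using fun i => exists_root (d := d i) (by have := hd i; omega) (p i : ℤ)
  set c : Fin k → ℚ := fun i => (d i : ℚ) ^ 2 * p i with hc
  have hc0 : ∀ i, c i ≠ 0 := by
    intro i
    rw [hc]
    have h1 : (d i : ℚ) ≠ 0 := by
      have := hd i
      exact_mod_cast (by omega : d i ≠ 0)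
    have h2 : (p i : ℚ) ≠ 0 := by exact_mod_cast (hp i).ne_zero
    exact mul_ne_zero (pow_ne_zero _ h1) h2
  have hcinj : Function.Injective c := by
    intro i j hij
    apply hinj
    have h1 : d i ^ 2 * p i = d j ^ 2 * p j := by
      simp only [hc] at hij
      exact_mod_cast hij
    exact sq_mul_inj (by have := hd i; omega) (by have := hd j; omega) (hp i) (hp j) h1
  have hθd : ∀ i, ((F i).map (Int.castRingHom ℚ)) ^ d i = 1 + C (c i) * X := by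
    intro i
    rw [← map_pow, hF1, map_add, map_one, map_mul, PowerSeries.map_C, PowerSeries.map_X]
    congr 3
    simp only [hc]
    simp
  have hFalg : ∀ i, IsAlgebraic (Polynomial ℚ) ((F i).map (Int.castRingHom ℚ)) := by
    intro i
    have hd1 : 1 ≤ d i := by have := hd i; omega
    obtain ⟨hmon, -⟩ := Pool.Agent.H609.XP.poly_facts hd1 (hc0 i)
    refine IsIntegral.isAlgebraic ⟨_, hmon, ?_⟩
    have h1 : Polynomial.aeval ((F i).map (Int.castRingHom ℚ)) (Polynomial.X ^ d i -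
        Polynomial.C (1 + Polynomial.C (c i) * Polynomial.X) : Polynomial (Polynomial ℚ)) = 0 := by
      rw [map_sub, map_pow, Polynomial.aeval_X, Polynomial.aeval_C, hθd,
        Pool.Agent.H609.JT.algebraMap_poly]
      simp
    exact h1
  have hind := t_IND k c d hcinj hc0 hd (fun i => (F i).map (Int.castRingHom ℚ)) hθd
  have h00 : ∀ i, ¬ (p i : ℤ) ∣ coeff 0 (F i) := by
    intro i
    rw [coeff_zero_eq_constantCoeff_apply, hF2]
    intro h
    have h1 := Int.eq_one_of_dvd_one (by positivity) h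
    have h2 : p i = 1 := by exact_mod_cast h1
    exact (hp i).one_lt.ne' h2
  obtain ⟨C, hC, n1, hn1⟩ := digits_all hb p hp hodd hinj hpb F hFalg h00 hF3
  obtain ⟨n2, hn2⟩ := lin_values (fun i => (F i).map (Int.castRingHom ℚ)) hFalg hind hb
  choose n3 hn3 using fun i => root_value hb (by have := hd i; omega : 1 ≤ d i) (hF1 i) (hF2 i)
    (hFalg i)
  choose C4 hC4 n4 hn4 using fun i => Pool.Agent.H609.XP.roots hb (hd i) (hp i) (hodd i) (hpb i)
  refine ⟨C, hC, max (max n1 n2) (max (∑ i, n3 i) (∑ i, n4 i)), fun n hn r => ?_⟩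
  have hnn1 : n1 ≤ n := le_trans (le_trans (le_max_left _ _) (le_max_left _ _)) hn
  have hnn2 : n2 ≤ n := le_trans (le_trans (le_max_right _ _) (le_max_left _ _)) hn
  have hnn3 : ∀ i, n3 i ≤ n := fun i =>
    (single_le_sum (f := n3) (fun _ _ => Nat.zero_le _) (mem_univ i)).trans
      ((le_max_left _ _).trans ((le_max_right _ _).trans hn))
  have hnn4 : ∀ i, n4 i ≤ n := fun i =>
    (single_le_sum (f := n4) (fun _ _ => Nat.zero_le _) (mem_univ i)).trans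
      ((le_max_right _ _).trans ((le_max_right _ _).trans hn))
  obtain ⟨hsm, hctl⟩ := hn1 n hnn1
  have hval : ∀ i, ev (((b : ℝ) ^ n)⁻¹) ((F i).map (Int.castRingHom ℚ)) =
      (1 + (d i : ℝ) ^ 2 * p i / (b : ℝ) ^ n) ^ (1 / (d i : ℝ)) := fun i => hn3 i n (hnn3 i)
  refine ⟨fun i => (hn4 i n (hnn4 i) (r i)).1, ?_, ?_⟩
  · have h1 := hn2 n hnn2 hsm (fun i => (p i : ℚ) ^ r i)
      (fun i => pow_ne_zero _ (by exact_mod_cast (hp i).ne_zero))
    push_cast at h1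
    simp only [hval] at h1
    exact h1
  · have h1 := hctl r
    simp only [hval] at h1
    exact h1

end Pool.Agent.H609.ET
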