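import Mathlib

/-!
# Project ET (helper609): explicit tuples of algebraic numbers with jointly equidistributed digits

Statements of the pieces (`S_...`), with paper proofs.
-/

set_option autoImplicit false

namespace Pool.Agent.H609.ET

open Finset

open Classical in
/-- the error of the number of the places of `G` in the window `s ≤ j < s + L` -/
noncomputable def EG (G : ℕ → Prop) (y : ℝ) (s L : ℕ) : ℝ :=
  ((({j ∈ range L | G (s + j)} : Finset ℕ).card : ℕ) : ℝ) - y * L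

/-- **S_BLK: from full periods to arbitrary windows.** This is `Er_run` and `Er_all` of
`Pool/Agent/H609/XP/Block.lean` (on origin/main) with the predicate `G j` in place of
`Int.fract (x j) < y`, and an arbitrary error `e` in place of `3`.

Proof: copy `Pool/Agent/H609/XP/Block.lean` into the new file and replace `Int.fract (x (s + j)) < y` by
`G (s + j)` everywhere (`Er_eq_sum`, `Er_add`, `Er_le`, `sum_prod`, `Er_run`, `Er_seg`, `Er_block`,
`Er_aligned`, `Er_all`; the proofs only use that the indicator minus `y` has absolute value at most `1` and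
that the error is additive). Then apply `Er_all` with `T := t * P` and the error `t * e` for the windows of
length `T` (by `Er_run`: such a window is the union of `t` progressions `i + t m`, `m < P`). -/
def S_BLK : Prop := open Classical in
  ∀ (G : ℕ → Prop) (y : ℝ), 0 ≤ y → y ≤ 1 → ∀ t P : ℕ, 0 < t → 0 < P → ∀ e : ℝ, 0 ≤ e →
    ∀ n g N : ℕ, 0 < n →
    (∀ κ s : ℕ, n * κ ≤ s → s + t * P + g ≤ n * κ + n → s < N → ∀ i < t,
      |((({m ∈ range P | G (s + (i + t * m))} : Finset ℕ).card : ℕ) : ℝ) - P * y| ≤ e) →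
    ∀ s L : ℕ, s + L ≤ N → |EG G y s L| ≤ t * e * (L / ((t * P : ℕ) : ℝ)) +
      (((t * P : ℕ) : ℝ) + g) * (L / n + 2)

/-- **S_CRT: counting by the Chinese remainder theorem.**

Proof: the map `m ↦ (m % Q i)_i` from `range (∏ i, Q i)` to `Fintype.piFinset fun i => range (Q i)` is
injective (if `m ≡ m' mod Q i` for all `i` then the product divides the difference,
`Finset.prod_dvd_of_coprime` or `Fintype.prod_dvd_of_coprime`, over `ℤ`), and both sides have the same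
number of elements, so its image is everything. Hence the left side is the number of the elements of
`Fintype.piFinset fun i => {m ∈ range (Q i) | A i m}`, `Fintype.card_piFinset`. -/
def S_CRT : Prop := open Classical in
  ∀ (k : ℕ) (Q : Fin k → ℕ), (∀ i, 0 < Q i) → (∀ i j, i ≠ j → (Q i).Coprime (Q j)) →
    ∀ A : Fin k → ℕ → Prop,
      ({m ∈ range (∏ i, Q i) | ∀ i, A i (m % Q i)} : Finset ℕ).card =
        ∏ i, ({m ∈ range (Q i) | A i m} : Finset ℕ).card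

/-- **S_PRO: the difference of two products.**

Proof: by induction on `k` (`Fin.prod_univ_succ`):
`|x₀ X - y₀ Y| ≤ |x₀ - y₀| |X| + |y₀| |X - Y| ≤ e ∏_{i ≥ 1} P i + P₀ e (∏_{i ≥ 1} P i) ∑_{i ≥ 1} 1 / P i`. -/
def S_PRO : Prop :=
  ∀ (k : ℕ) (x y P : Fin k → ℝ) (e : ℝ), 0 ≤ e → (∀ i, 0 < P i) → (∀ i, 0 ≤ x i) → (∀ i, x i ≤ P i) →
    (∀ i, 0 ≤ y i) → (∀ i, y i ≤ P i) → (∀ i, |x i - y i| ≤ e) →
    |∏ i, x i - ∏ i, y i| ≤ e * (∏ i, P i) * ∑ i, 1 / P i

/-- **S_CNT: the powers of `u = 1 + p ^ a w` modulo `p ^ r` over a full period.** With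
`P = p ^ (r - a)` and `ρ m = (V * u ^ m) % p ^ r`:
(1) for `z ≤ p ^ r` at least `z / p ^ a - 2` of the `m < P` have `ρ m < z`; (2) for `z ≥ 0` at most
`z / p ^ a + 2`; (3) `ρ` has the period `P`; (4) `1 ≤ ρ m < p ^ r`.

Proof: (1), (2), (4) are contained in the proof of `run` in `Pool/Agent/H609/XP/Count.lean` (on origin/main;
`hlow`, `hupp`, `hρ1`, `hρQ` there); copy it. (3): `p ^ r ∣ u ^ P - 1` by `Int.emultiplicity_pow_sub_pow`
(`emultiplicity p (u - 1) = a`, `emultiplicity p P = r - a`), so `u ^ m ≡ u ^ (m % P)`. -/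
def S_CNT : Prop :=
  ∀ (p : ℕ), p.Prime → Odd p → ∀ (a : ℕ) (u w : ℤ), 1 ≤ a → u = 1 + (p : ℤ) ^ a * w →
    ¬ (p : ℤ) ∣ w → ∀ r : ℕ, a ≤ r → ∀ V : ℤ, ¬ (p : ℤ) ∣ V →
    (∀ z : ℝ, z ≤ (p : ℝ) ^ r → z / (p : ℝ) ^ a - 2 ≤
      ((({m ∈ range (p ^ (r - a)) | (((V * u ^ m) % (p : ℤ) ^ r : ℤ) : ℝ) < z} : Finset ℕ).card : ℕ) :
        ℝ)) ∧
    (∀ z : ℝ, 0 ≤ z →
      ((({m ∈ range (p ^ (r - a)) | (((V * u ^ m) % (p : ℤ) ^ r : ℤ) : ℝ) < z} : Finset ℕ).card : ℕ) :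
        ℝ) ≤ z / (p : ℝ) ^ a + 2) ∧
    (∀ m : ℕ, (V * u ^ m) % (p : ℤ) ^ r = (V * u ^ (m % p ^ (r - a))) % (p : ℤ) ^ r) ∧
    (∀ m : ℕ, 1 ≤ (V * u ^ m) % (p : ℤ) ^ r ∧ (V * u ^ m) % (p : ℤ) ^ r < (p : ℤ) ^ r)

/-- **S_RUN: joint equidistribution over a full period**, also after a small perturbation. Use `S_CNT`,
`S_CRT`, `S_PRO` as hypotheses (`theorem t_RUN (hcnt : S_CNT) (hcrt : S_CRT) (hpro : S_PRO) : S_RUN`).

Proof: put `q i = p i ^ r i`, `P i = p i ^ (r i - a i)`, `ρ i m = (V i * u ^ m) % q i`. As in the proof of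
`run` in `Pool/Agent/H609/XP/Count.lean` (`hfr` there) `1 ≤ ρ i m < q i` gives
`|Int.fract (c m i) - ρ i m / q i| ≤ 1 / (2 q i)` for all `m < ∏ P i`. So the set in question contains the set
of the `m` with `q i * lo i + 1 / 2 ≤ ρ i m < q i * hi i - 1 / 2` for all `i` and is contained in the set of
the `m` with `q i * lo i - 1 / 2 ≤ ρ i m < q i * hi i + 1 / 2` for all `i`. As `ρ i m = ρ i (m % P i)` (`S_CNT`
(3)) these are sets `{m < ∏ P i | ∀ i, A i (m % P i)}`, which have `∏ N i` elements by `S_CRT` (the `P i` are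
coprime as the `p i` are distinct primes), where `N i` is the number of the `m < P i` with `A i m`. This is
`#{ρ < hi'} - #{ρ < min lo' hi'}`, so `|N i - P i (hi i - lo i)| ≤ 6` by `S_CNT` (1), (2)
(`q i / p i ^ a i = P i`, `1 / 2 / p ^ a ≤ 1`; for the inner set if `lo' > hi'` the set is empty and
`P i (hi i - lo i) ≤ 1`), and `0 ≤ N i ≤ P i`. Then `S_PRO` with `e = 6`, `x i = N i`,
`y i = P i (hi i - lo i)`. -/
def S_RUN : Prop := open Classical in
  ∀ (k : ℕ) (p : Fin k → ℕ), (∀ i, (p i).Prime) → (∀ i, Odd (p i)) → Function.Injective p →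
    ∀ (a : Fin k → ℕ) (u : ℤ) (w : Fin k → ℤ), (∀ i, 1 ≤ a i) →
    (∀ i, u = 1 + (p i : ℤ) ^ a i * w i) → (∀ i, ¬ (p i : ℤ) ∣ w i) →
    ∀ r : Fin k → ℕ, (∀ i, a i ≤ r i) → ∀ V : Fin k → ℤ, (∀ i, ¬ (p i : ℤ) ∣ V i) →
    ∀ c : ℕ → Fin k → ℝ,
    (∀ m < ∏ i, p i ^ (r i - a i), ∀ i,
      |c m i - ((V i * u ^ m : ℤ) : ℝ) / (p i : ℝ) ^ r i| ≤ 1 / (2 * (p i : ℝ) ^ r i)) →
    ∀ lo hi : Fin k → ℝ, (∀ i, 0 ≤ lo i) → (∀ i, lo i ≤ hi i) → (∀ i, hi i ≤ 1) →
    |((({m ∈ range (∏ i, p i ^ (r i - a i)) | ∀ i, lo i ≤ Int.fract (c m i) ∧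
        Int.fract (c m i) < hi i} : Finset ℕ).card : ℕ) : ℝ) -
      ((∏ i, p i ^ (r i - a i) : ℕ) : ℝ) * ∏ i, (hi i - lo i)| ≤
      6 * ((∏ i, p i ^ (r i - a i) : ℕ) : ℝ) * ∑ i, 1 / (p i : ℝ) ^ (r i - a i)

open PowerSeries in
/-- **S_IND: the functions `1, (1 + c i x) ^ (1 / d i)` are linearly independent over `ℚ(x)`** if the
`c i` are distinct and not `0`, and `d i ≥ 2`.

Proof: put `F` at the extra index `0` equal to `1`, with `c = 0`, `d = 1`. Differentiating `F ^ d = 1 + c X`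
(`PowerSeries.derivative`, `d⁄dX`) and multiplying by `F` one gets `d (1 + c X) F' = c F`. Take a nontrivial
relation `∑_{i ∈ I} P i F i = 0` with all `P i ≠ 0`, `I` not empty and of the least cardinality (for instance
by strong induction on the cardinality of the support). As `F i ≠ 0`, `I` has two elements `i ≠ j`; let
`c i ≠ 0`. Differentiate the relation and multiply by `N = ∏ d_l (1 + c_l X)`: this is a relation with the
coefficients `Q l = N (P l)' + P l c_l N / (d_l (1 + c_l X))`. Then `P i · (new) - Q i · (old)` has smaller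
support, so `P i Q l = Q i P l` for all `l ∈ I`, in particular for `l = j`; dividing by `N` and clearing the
denominators: with `A = P i`, `B = P j`,
`d_i d_j (1 + c_i X)(1 + c_j X)(A B' - B A') = A B (c_i d_j (1 + c_j X) - c_j d_i (1 + c_i X))`.
Let `ρ = - 1 / c_i`, `A = (X - ρ) ^ m A₁`, `B = (X - ρ) ^ l B₁` with `A₁(ρ), B₁(ρ) ≠ 0`
(`Polynomial.exists_eq_pow_rootMultiplicity_mul_and_not_dvd`). As
`(X - ρ)(A B' - B A') = (X - ρ) ^ (m + l) ((l - m) A₁ B₁ + (X - ρ)(A₁ B₁' - B₁ A₁'))` and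
`1 + c_i X = c_i (X - ρ)`, cancelling `(X - ρ) ^ (m + l)` and evaluating at `ρ` gives
`d_i d_j c_i (1 + c_j ρ)(l - m) = c_i d_j (1 + c_j ρ)`, and `1 + c_j ρ = (c_i - c_j) / c_i ≠ 0`, so
`d_i (l - m) = 1`, which is impossible for `d_i ≥ 2`. -/
def S_IND : Prop :=
  ∀ (k : ℕ) (c : Fin k → ℚ) (d : Fin k → ℕ), Function.Injective c → (∀ i, c i ≠ 0) →
    (∀ i, 2 ≤ d i) → ∀ F : Fin k → ℚ⟦X⟧, (∀ i, F i ^ d i = 1 + C (c i) * X) →
    ∀ (P₀ : Polynomial ℚ) (P : Fin k → Polynomial ℚ),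
      (P₀ : ℚ⟦X⟧) + ∑ i, (P i : ℚ⟦X⟧) * F i = 0 → P = 0

end Pool.Agent.H609.ET
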